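import Mathlib

/-!
Uniformisation of Weierstrass cubics: for all `g₂, g₃` there are meromorphic functions `h, k` on the
plane, analytic at `0`, with `h 0 = 1`, `k 0 = -2` and `k² = 4 h³ - g₂ h z⁴ - g₃ z⁶` near `0`.
-/

set_option autoImplicit false

namespace Pool.Agent.H892Z.Ell

open UpperHalfPlane ModularForm ModularFormClass MatrixGroups EisensteinSeries Filter Topology
open scoped Real

theorem tendsto_value {k : ℤ} (f : ModularForm 𝒮ℒ k) :
    Tendsto f atImInfty (𝓝 ((qExpansion 1 f).coeff 0)) := by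
  have hanal := ModularFormClass.analyticAt_cuspFunction_zero f one_pos one_mem_strictPeriods_SL
  have hper := SlashInvariantFormClass.periodic_comp_ofComplex f one_mem_strictPeriods_SL
  rw [qExpansion_coeff_zero one_pos hanal hper, ← cuspFunction_apply_zero one_pos hanal hper]
  exact (hanal.continuousAt.tendsto.comp (qParam_tendsto_atImInfty one_pos)).congr
    (fun τ ↦ SlashInvariantFormClass.eq_cuspFunction f τ one_mem_strictPeriods_SL one_ne_zero)

/-- a modular form of level one and positive weight that does not vanish at the cusp has a zero -/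
theorem exists_zero {k : ℤ} (hk : 0 < k) (f : ModularForm 𝒮ℒ k) (c : ℂ) (hc : c ≠ 0)
    (hf : Tendsto f atImInfty (𝓝 c)) : ∃ τ : ℍ, f τ = 0 := by
  by_contra h
  push Not at h
  have hsl : ∀ γ : SL(2, ℤ), (fun z ↦ (1 : ModularForm 𝒮ℒ 0) z / f z) ∣[(0 : ℤ) - k] γ =
      fun z ↦ (1 : ModularForm 𝒮ℒ 0) z / f z := by
    intro γ
    have hγ : (γ : GL (Fin 2) ℝ) ∈ 𝒮ℒ := ⟨γ, rfl⟩
    change (⇑(1 : ModularForm 𝒮ℒ 0) / ⇑f) ∣[(0 : ℤ) - k] γ = ⇑(1 : ModularForm 𝒮ℒ 0) / ⇑f
    simp_rw [div_slash_SL2, SL_slash, SlashInvariantForm.slash_action_eqn _ _ hγ]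
  let g : ModularForm 𝒮ℒ ((0 : ℤ) - k) :=
    { toFun z := (1 : ModularForm 𝒮ℒ 0) z / f z
      slash_action_eq' := fun _ ⟨γ, hγ⟩ ↦ hγ ▸ hsl γ
      holo' := (1 : ModularForm 𝒮ℒ 0).holo'.div f.holo' h
      bdd_at_cusps' {c'} hc' := by
        rw [Subgroup.IsArithmetic.isCusp_iff_isCusp_SL2Z] at hc'
        rw [OnePoint.isBoundedAt_iff_forall_SL2Z hc']
        intro γ _
        rw [hsl γ, IsBoundedAtImInfty, BoundedAtFilter]
        have h1 : Tendsto (fun z ↦ (1 : ModularForm 𝒮ℒ 0) z / f z) atImInfty (𝓝 (1 / c)) := by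
          have : (fun z ↦ (1 : ModularForm 𝒮ℒ 0) z / f z) = fun z => 1 / f z := by
            funext z
            simp
          rw [this]
          exact tendsto_const_nhds.div hf hc
        exact h1.isBigO_one ℝ }
  have h0 := levelOne_neg_weight_eq_zero (k := (0 : ℤ) - k) (by omega) g
  have h1 : g I = 0 := congrFun h0 I
  have h2 : g I = 1 / f I := by
    show (1 : ModularForm 𝒮ℒ 0) I / f I = 1 / f I
    simp
  rw [h2, div_eq_zero_iff] at h1
  rcases h1 with h1 | h1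
  · exact one_ne_zero h1
  · exact h I h1

theorem exists_tau (a b : ℂ) (hab : a ^ 3 ≠ b ^ 2) :
    ∃ τ : ℍ, b ^ 2 * E₄ τ ^ 3 = a ^ 3 * E₆ τ ^ 2 := by
  let f : ModularForm 𝒮ℒ 12 :=
    b ^ 2 • ModularForm.mcast (by decide) (E₄.pow 3) -
      a ^ 3 • ModularForm.mcast (by decide) (E₆.pow 2)
  have hf : ∀ z, f z = b ^ 2 * E₄ z ^ 3 - a ^ 3 * E₆ z ^ 2 := by
    intro z
    have h1 : (E₄.pow 3) z = E₄ z ^ 3 := by simp only [coe_pow, Pi.pow_apply]
    have h2 : (E₆.pow 2) z = E₆ z ^ 2 := by simp only [coe_pow, Pi.pow_apply]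
    rw [← h1, ← h2]
    simp [f, coe_mcast]
  have h4 : Tendsto E₄ atImInfty (𝓝 1) := by
    have := tendsto_value E₄
    rwa [E_qExpansion_coeff_zero _ ⟨2, rfl⟩] at this
  have h6 : Tendsto E₆ atImInfty (𝓝 1) := by
    have := tendsto_value E₆
    rwa [E_qExpansion_coeff_zero _ ⟨3, rfl⟩] at this
  have ht : Tendsto f atImInfty (𝓝 (b ^ 2 * 1 ^ 3 - a ^ 3 * 1 ^ 2)) := by
    have : (f : ℍ → ℂ) = fun z => b ^ 2 * E₄ z ^ 3 - a ^ 3 * E₆ z ^ 2 := funext hf
    rw [this]
    exact ((h4.pow 3).const_mul _).sub ((h6.pow 2).const_mul _)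
  obtain ⟨τ, hτ⟩ := exists_zero (by norm_num) f _ (by
    intro h
    apply hab
    linear_combination -h) ht
  exact ⟨τ, by rw [hf] at hτ; linear_combination hτ⟩

/-- the period pair `(τ, 1)` -/
noncomputable def pp (τ : ℍ) : PeriodPair where
  ω₁ := τ
  ω₂ := 1
  indep := by
    rw [LinearIndependent.pair_iff]
    intro s t h
    have h1 := congrArg Complex.im h
    have h2 := congrArg Complex.re h
    simp at h1 h2
    have hs : s = 0 := h1.resolve_right τ.im_pos.ne'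
    rw [hs] at h2
    exact ⟨hs, by simpa using h2⟩

theorem G_pp (τ : ℍ) {k : ℕ} (hk : 3 ≤ k) : (pp τ).G k = riemannZeta k * (2 * E hk τ) := by
  have h1 := tsum_eisSummand_eq_riemannZeta_mul_eisensteinSeries hk τ
  have h2 : E hk τ = (1 / 2 : ℂ) * eisensteinSeries (N := 1) 0 k τ := rfl
  rw [h2, ← mul_assoc (2 : ℂ), show (2 : ℂ) * (1 / 2) = 1 by norm_num, one_mul, ← h1,
    PeriodPair.G]
  let e : (Fin 2 → ℤ) ≃ (pp τ).lattice :=
    (finTwoArrowEquiv ℤ).trans (pp τ).latticeEquivProd.symm.toEquiv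
  rw [← e.tsum_eq]
  refine tsum_congr fun v => ?_
  have : ((e v : (pp τ).lattice) : ℂ) = v 0 * τ + v 1 := by
    have h3 := (pp τ).latticeEquiv_symm_apply (v 0, v 1)
    have h4 : e v = (pp τ).latticeEquivProd.symm (v 0, v 1) := rfl
    rw [h4, h3]
    simp [pp]
  rw [this, eisSummand, zpow_neg, zpow_natCast]

theorem zeta_six : riemannZeta 6 = (π : ℂ) ^ 6 / 945 := by
  have h := riemannZeta_two_mul_nat (k := 3) (by norm_num)
  have hb : bernoulli 6 = 1 / 42 := by decide +kernel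
  norm_num [hb, Nat.factorial] at h
  rw [h]
  ring

theorem g2_pp (τ : ℍ) : (pp τ).g₂ = 4 / 3 * (π : ℂ) ^ 4 * E₄ τ := by
  rw [PeriodPair.g₂, G_pp τ (by norm_num : 3 ≤ 4)]
  have : riemannZeta ((4 : ℕ) : ℂ) = π ^ 4 / 90 := by
    rw [← riemannZeta_four]
    norm_num
  rw [this]
  ring

theorem g3_pp (τ : ℍ) : (pp τ).g₃ = 8 / 27 * (π : ℂ) ^ 6 * E₆ τ := by
  rw [PeriodPair.g₃, G_pp τ (by norm_num : 3 ≤ 6)]
  have : riemannZeta ((6 : ℕ) : ℂ) = π ^ 6 / 945 := by
    rw [← zeta_six]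
    norm_num
  rw [this]
  ring

theorem exists_scale (a b u v : ℂ) (huv : u ^ 3 ≠ v ^ 2) (hab : a ^ 3 ≠ b ^ 2)
    (h : b ^ 2 * u ^ 3 = a ^ 3 * v ^ 2) : ∃ c : ℂ, c ^ 4 * u = a ∧ c ^ 6 * v = b := by
  by_cases ha : a = 0
  · subst ha
    have hb : b ≠ 0 := by
      rintro rfl
      exact hab (by ring)
    have hu : u = 0 := by
      have : b ^ 2 * u ^ 3 = 0 := by rw [h]; ring
      exact pow_eq_zero_iff (by norm_num) |>.1 ((mul_eq_zero.1 this).resolve_left (pow_ne_zero _ hb))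
    have hv : v ≠ 0 := by
      rintro rfl
      exact huv (by rw [hu]; ring)
    obtain ⟨c, hc⟩ := IsAlgClosed.exists_pow_nat_eq (b / v) (by norm_num : 0 < 6)
    exact ⟨c, by rw [hu, mul_zero], by rw [hc]; field_simp⟩
  by_cases hb : b = 0
  · subst hb
    have hv : v = 0 := by
      have : a ^ 3 * v ^ 2 = 0 := by rw [← h]; ring
      exact pow_eq_zero_iff (by norm_num) |>.1 ((mul_eq_zero.1 this).resolve_left (pow_ne_zero _ ha))
    have hu : u ≠ 0 := by
      rintro rfl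
      exact huv (by rw [hv]; ring)
    obtain ⟨c, hc⟩ := IsAlgClosed.exists_pow_nat_eq (a / u) (by norm_num : 0 < 4)
    exact ⟨c, by rw [hc]; field_simp, by rw [hv, mul_zero]⟩
  have hu : u ≠ 0 := by
    rintro rfl
    have : a ^ 3 * v ^ 2 = 0 := by rw [← h]; ring
    have hv : v = 0 :=
      pow_eq_zero_iff (by norm_num) |>.1 ((mul_eq_zero.1 this).resolve_left (pow_ne_zero _ ha))
    exact huv (by rw [hv]; ring)
  have hv : v ≠ 0 := by
    rintro rfl
    have : b ^ 2 * u ^ 3 = 0 := by rw [h]; ring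
    exact hu (pow_eq_zero_iff (by norm_num) |>.1
      ((mul_eq_zero.1 this).resolve_left (pow_ne_zero _ hb)))
  obtain ⟨c, hc⟩ := IsAlgClosed.exists_pow_nat_eq (b * u / (a * v)) (by norm_num : 0 < 2)
  refine ⟨c, ?_, ?_⟩
  · rw [show c ^ 4 = (c ^ 2) ^ 2 by ring, hc]
    field_simp
    linear_combination h
  · rw [show c ^ 6 = (c ^ 2) ^ 3 by ring, hc]
    field_simp
    linear_combination h

theorem exists_lattice (g₂ g₃ : ℂ) (h : g₂ ^ 3 ≠ 27 * g₃ ^ 2) :
    ∃ (L : PeriodPair) (c : ℂ), c ^ 4 * L.g₂ = g₂ ∧ c ^ 6 * L.g₃ = g₃ := by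
  have hπ : (π : ℂ) ≠ 0 := by exact_mod_cast Real.pi_ne_zero
  let a : ℂ := 3 * g₂ / (4 * π ^ 4)
  let b : ℂ := 27 * g₃ / (8 * π ^ 6)
  have hab : a ^ 3 ≠ b ^ 2 := by
    intro h1
    apply h
    simp only [a, b] at h1
    field_simp at h1
    linear_combination h1 / 1728
  obtain ⟨τ, hτ⟩ := exists_tau a b hab
  have hne : E₄ τ ^ 3 ≠ E₆ τ ^ 2 := by
    intro h1
    apply discriminant_ne_zero τ
    rw [discriminant_eq_E₄_cube_sub_E₆_sq, h1, sub_self, zero_div]
  obtain ⟨c, h1, h2⟩ := exists_scale a b _ _ hne hab hτ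
  refine ⟨pp τ, c, ?_, ?_⟩
  · rw [g2_pp]
    have : g₂ = 4 / 3 * π ^ 4 * a := by simp only [a]; field_simp
    rw [this, ← h1]
    ring
  · rw [g3_pp]
    have : g₃ = 8 / 27 * π ^ 6 * b := by simp only [b]; field_simp
    rw [this, ← h2]
    ring

/-- uniformisation of every Weierstrass cubic, singular ones included -/
theorem weier (g₂ g₃ : ℂ) : ∃ h k : ℂ → ℂ, Meromorphic h ∧ Meromorphic k ∧ AnalyticAt ℂ h 0 ∧
    AnalyticAt ℂ k 0 ∧ h 0 = 1 ∧ k 0 = -2 ∧
    ∀ᶠ z in 𝓝 (0 : ℂ), k z ^ 2 = 4 * h z ^ 3 - g₂ * h z * z ^ 4 - g₃ * z ^ 6 := by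
  by_cases hd : g₂ ^ 3 = 27 * g₃ ^ 2
  · obtain ⟨e, h2, h3⟩ : ∃ e : ℂ, g₂ = 4 * e ^ 2 / 3 ∧ g₃ = 8 * e ^ 3 / 27 := by
      by_cases h0 : g₂ = 0
      · refine ⟨0, by simp [h0], ?_⟩
        have : g₃ ^ 2 = 0 := by
          rw [h0] at hd
          linear_combination -hd / 27
        simpa using this
      · refine ⟨9 * g₃ / (2 * g₂), ?_, ?_⟩
        · field_simp
          linear_combination 12 * hd
        · field_simp
          linear_combination 216 * g₃ * hd
    refine ⟨fun z => (1 + e * z ^ 2 / 4) ^ 2 - e * z ^ 2 / 3,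
      fun z => -2 * (1 - e * z ^ 2 / 4) * (1 + e * z ^ 2 / 4) ^ 2, ?_, ?_, ?_, ?_, by simp, by simp,
      Eventually.of_forall fun z => ?_⟩
    · intro z
      apply AnalyticAt.meromorphicAt
      fun_prop
    · intro z
      apply AnalyticAt.meromorphicAt
      fun_prop
    · fun_prop
    · fun_prop
    · rw [h2, h3]
      ring
  obtain ⟨L, c, h2, h3⟩ := exists_lattice g₂ g₃ hd
  have hc : c ≠ 0 := by
    rintro rfl
    apply hd
    rw [← h2, ← h3]
    ring
  have e1 : ∀ w, (L.weierstrassPExcept 0) w = L.weierstrassP w - 1 / w ^ 2 := by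
    intro w
    have := L.weierstrassPExcept_def ⟨0, zero_mem _⟩ w
    simpa [sub_eq_add_neg] using this
  have e2 : ∀ w, (L.derivWeierstrassPExcept 0) w = L.derivWeierstrassP w + 2 / w ^ 3 := by
    intro w
    have := L.derivWeierstrassPExcept_def ⟨0, zero_mem _⟩ w
    simpa using this
  have mid : Meromorphic fun z : ℂ => z := fun z => analyticAt_id.meromorphicAt
  have m1 : Meromorphic (L.weierstrassPExcept 0) := by
    rw [funext e1]
    intro z
    exact (L.meromorphic_weierstrassP z).sub ((MeromorphicAt.const 1 z).div ((mid z).pow 2))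
  have m2 : Meromorphic (L.derivWeierstrassPExcept 0) := by
    rw [funext e2]
    intro z
    exact (L.meromorphic_derivWeierstrassP z).add ((MeromorphicAt.const 2 z).div ((mid z).pow 3))
  have hlin : ∀ z : ℂ, AnalyticAt ℂ (fun z : ℂ => c * z) z := fun z => by fun_prop
  have m1' : Meromorphic fun z => (L.weierstrassPExcept 0) (c * z) := fun z =>
    MeromorphicAt.comp_analyticAt (g := fun z : ℂ => c * z) (m1 (c * z)) (hlin z)
  have m2' : Meromorphic fun z => (L.derivWeierstrassPExcept 0) (c * z) := fun z =>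
    MeromorphicAt.comp_analyticAt (g := fun z : ℂ => c * z) (m2 (c * z)) (hlin z)
  have a1 : AnalyticAt ℂ (fun z => (L.weierstrassPExcept 0) (c * z)) 0 :=
    AnalyticAt.comp (g := (L.weierstrassPExcept 0)) (f := fun z : ℂ => c * z)
      (by simpa using L.analyticAt_weierstrassPExcept 0) (hlin 0)
  have a2 : AnalyticAt ℂ (fun z => (L.derivWeierstrassPExcept 0) (c * z)) 0 :=
    AnalyticAt.comp (g := (L.derivWeierstrassPExcept 0)) (f := fun z : ℂ => c * z)
      (by simpa using L.analyticAt_derivWeierstrassPExcept 0) (hlin 0)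
  refine ⟨fun z => 1 + (c * z) ^ 2 * (L.weierstrassPExcept 0) (c * z), fun z => -2 + (c * z) ^ 3 * (L.derivWeierstrassPExcept 0) (c * z),
    fun z => (MeromorphicAt.const 1 z).add (((hlin z).meromorphicAt.pow 2).mul (m1' z)),
    fun z => (MeromorphicAt.const (-2) z).add (((hlin z).meromorphicAt.pow 3).mul (m2' z)),
    analyticAt_const.add (((hlin 0).pow 2).mul a1), analyticAt_const.add (((hlin 0).pow 3).mul a2),
    by simp, by simp, ?_⟩
  have hn : ∀ᶠ z in 𝓝 (0 : ℂ), c * z ∈ ((L.lattice : Set ℂ) \ {0})ᶜ := by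
    have : Tendsto (fun z : ℂ => c * z) (𝓝 0) (𝓝 0) := by
      simpa using (hlin 0).continuousAt.tendsto
    exact this.eventually (L.compl_lattice_sdiff_singleton_mem_nhds 0)
  filter_upwards [hn] with z hz
  by_cases hz0 : z = 0
  · subst hz0
    norm_num
  have hcz : c * z ≠ 0 := mul_ne_zero hc hz0
  have hz1 : c * z ∉ L.lattice := fun h => hz ⟨h, hcz⟩
  have h4 := L.derivWeierstrassP_sq (c * z) hz1
  have f1 : 1 + (c * z) ^ 2 * (L.weierstrassPExcept 0) (c * z) = (c * z) ^ 2 * L.weierstrassP (c * z) := by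
    rw [e1]
    field_simp
    ring
  have f2 : -2 + (c * z) ^ 3 * (L.derivWeierstrassPExcept 0) (c * z) = (c * z) ^ 3 * L.derivWeierstrassP (c * z) := by
    rw [e2]
    field_simp
    ring
  rw [f1, f2, mul_pow ((c * z) ^ 3), h4, ← h2, ← h3]
  ring

end Pool.Agent.H892Z.Ell
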