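import Mathlib
import Pool.Agent.H892Z.Ell.Unif

/-!
Meromorphic parametrisations through a given point of quartic curves `w² = R(m)` and of
intersections of two quadrics `ξ² = A(τ)`, `η² = B(τ)`.
-/

set_option autoImplicit false

namespace Pool.Agent.H892Z.Ell

open Filter Topology

/-- meromorphic on the plane and analytic at the origin -/
def MA (f : ℂ → ℂ) : Prop := Meromorphic f ∧ AnalyticAt ℂ f 0

theorem MA.const (c : ℂ) : MA fun _ => c := ⟨fun z => MeromorphicAt.const c z, analyticAt_const⟩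

theorem MA.id : MA fun z => z := ⟨fun _ => analyticAt_id.meromorphicAt, analyticAt_id⟩

theorem MA.add {f g : ℂ → ℂ} (hf : MA f) (hg : MA g) : MA fun z => f z + g z :=
  ⟨fun z => (hf.1 z).add (hg.1 z), hf.2.add hg.2⟩

theorem MA.sub {f g : ℂ → ℂ} (hf : MA f) (hg : MA g) : MA fun z => f z - g z :=
  ⟨fun z => (hf.1 z).sub (hg.1 z), hf.2.sub hg.2⟩

theorem MA.mul {f g : ℂ → ℂ} (hf : MA f) (hg : MA g) : MA fun z => f z * g z :=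
  ⟨fun z => (hf.1 z).mul (hg.1 z), hf.2.mul hg.2⟩

theorem MA.pow {f : ℂ → ℂ} (hf : MA f) (n : ℕ) : MA fun z => f z ^ n :=
  ⟨fun z => (hf.1 z).pow n, hf.2.pow n⟩

theorem MA.div {f g : ℂ → ℂ} (hf : MA f) (hg : MA g) (h0 : g 0 ≠ 0) : MA fun z => f z / g z :=
  ⟨fun z => (hf.1 z).div (hg.1 z), hf.2.div hg.2 h0⟩

theorem MA.cmul {f : ℂ → ℂ} (c : ℂ) (hf : MA f) : MA fun z => c * f z := (MA.const c).mul hf

theorem MA.ev_ne {g : ℂ → ℂ} (hg : MA g) (h0 : g 0 ≠ 0) : ∀ᶠ z in 𝓝 (0 : ℂ), g z ≠ 0 :=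
  hg.2.continuousAt.eventually_ne h0

/-- general Weierstrass cubics -/
theorem weier_long (a₁ a₂ a₃ a₄ a₆ : ℂ) : ∃ X Y : ℂ → ℂ, MA X ∧ MA Y ∧ X 0 = 1 ∧ Y 0 = -1 ∧
    ∀ᶠ z in 𝓝 (0 : ℂ), Y z ^ 2 + a₁ * X z * Y z * z + a₃ * Y z * z ^ 3 =
      X z ^ 3 + a₂ * X z ^ 2 * z ^ 2 + a₄ * X z * z ^ 4 + a₆ * z ^ 6 := by
  let b₂ := a₁ ^ 2 + 4 * a₂
  let b₄ := 2 * a₄ + a₁ * a₃
  let b₆ := a₃ ^ 2 + 4 * a₆
  obtain ⟨h, k, h1, k1, h2, k2, h3, k3, hk⟩ :=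
    weier ((b₂ ^ 2 - 24 * b₄) / 12) ((-b₂ ^ 3 + 36 * b₂ * b₄ - 216 * b₆) / 216)
  have hh : MA h := ⟨h1, h2⟩
  have kk : MA k := ⟨k1, k2⟩
  have hX : MA fun z => h z - b₂ / 12 * z ^ 2 := hh.sub ((MA.id.pow 2).cmul _)
  refine ⟨fun z => h z - b₂ / 12 * z ^ 2,
    fun z => (1 / 2) * (k z - a₁ * ((h z - b₂ / 12 * z ^ 2) * z) - a₃ * z ^ 3), hX,
    ((kk.sub ((hX.mul MA.id).cmul _)).sub ((MA.id.pow 3).cmul _)).cmul _, by simp [h3],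
    by simp [k3], ?_⟩
  filter_upwards [hk] with z hz
  simp only [b₂, b₄, b₆] at hz ⊢
  linear_combination hz / 4

/-- quartic curves through a point that is not a branch point -/
theorem quartic (a b c d q : ℂ) (hq : q ≠ 0) : ∃ μ w : ℂ → ℂ, MA μ ∧ MA w ∧ μ 0 ≠ 0 ∧ w 0 = q ∧
    ∀ᶠ z in 𝓝 (0 : ℂ), w z ^ 2 =
      a * (z * μ z) ^ 4 + b * (z * μ z) ^ 3 + c * (z * μ z) ^ 2 + d * (z * μ z) + q ^ 2 := by
  let a₂ := c - d ^ 2 / (4 * q ^ 2)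
  obtain ⟨X, Y, hX, hY, X0, Y0, hXY⟩ :=
    weier_long (d / q) a₂ (2 * q * b) (-4 * q ^ 2 * a) (a₂ * (-4 * q ^ 2 * a))
  have hY0 : Y 0 ≠ 0 := by rw [Y0]; norm_num
  let μ : ℂ → ℂ := fun z => 2 * q * (X z + a₂ * z ^ 2) / Y z
  have hμ : MA μ := ((hX.add ((MA.id.pow 2).cmul _)).cmul _).div hY hY0
  have hμ0 : μ 0 = -(2 * q) := by
    simp only [μ, X0, Y0]
    ring
  refine ⟨μ, fun z => -q + (1 / (2 * q)) * (μ z ^ 2 * X z - d * (z * μ z)), hμ,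
    (MA.const _).add ((((hμ.pow 2).mul hX).sub ((MA.id.mul hμ).cmul _)).cmul _), ?_, ?_, ?_⟩
  · rw [hμ0]
    simpa using hq
  · simp only [hμ0, X0]
    field_simp
    ring
  filter_upwards [hXY, hY.ev_ne hY0] with z hz hYz
  have E2 : μ z * Y z = 2 * q * (X z + a₂ * z ^ 2) := by
    simp only [μ]
    field_simp
  have E1 : 2 * q * Y z + 2 * d * X z * z + 4 * q ^ 2 * b * z ^ 3 =
      μ z * (X z ^ 2 - 4 * q ^ 2 * a * z ^ 4) := by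
    apply mul_left_cancel₀ hYz
    have h1 : d / q * (2 * q) = 2 * d := by field_simp
    linear_combination (2 * q) * hz - (X z ^ 2 - 4 * q ^ 2 * a * z ^ 4) * E2 -
      (X z * Y z * z) * h1
  have E3 : 4 * q ^ 2 * a₂ + d ^ 2 = 4 * q ^ 2 * c := by
    simp only [a₂]
    field_simp
    ring
  have E4 : (μ z * X z - d * z) ^ 2 - 4 * q ^ 2 * X z =
      4 * q ^ 2 * (a * z ^ 4 * μ z ^ 2 + b * z ^ 3 * μ z + c * z ^ 2) := by
    linear_combination (-μ z) * E1 + 2 * q * E2 + z ^ 2 * E3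
  have h4 : (4 * q ^ 2) ≠ 0 := by simpa using hq
  apply mul_left_cancel₀ h4
  have h5 : 4 * q ^ 2 * (-q + (1 / (2 * q)) * (μ z ^ 2 * X z - d * (z * μ z))) ^ 2 =
      (-(2 * q ^ 2) + (μ z ^ 2 * X z - d * (z * μ z))) ^ 2 := by
    field_simp
    ring
  rw [h5]
  linear_combination (μ z) ^ 2 * E4

/-- intersections of two quadrics through a point off the two coordinate planes -/
theorem quadrics (A₁ A₂ B₁ B₂ x y : ℂ) (hx : x ≠ 0) (hy : y ≠ 0) :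
    ∃ ν ξ η : ℂ → ℂ, MA ν ∧ MA ξ ∧ MA η ∧ ν 0 ≠ 0 ∧ ξ 0 = x ∧ η 0 = y ∧
      ∀ᶠ z in 𝓝 (0 : ℂ), ξ z ^ 2 = x ^ 2 + A₁ * (z * ν z) + A₂ * (z * ν z) ^ 2 ∧
        η z ^ 2 = y ^ 2 + B₁ * (z * ν z) + B₂ * (z * ν z) ^ 2 := by
  let s := A₁ / (2 * x)
  let δ := s ^ 2 - A₂
  obtain ⟨μ, w, hμ, hw, μ0, w0, h⟩ := quartic (y ^ 2 * δ ^ 2)
    (-4 * y ^ 2 * s * δ + 2 * x * B₁ * δ)
    (y ^ 2 * (4 * s ^ 2 + 2 * δ) - 4 * x * B₁ * s + 4 * x ^ 2 * B₂)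
    (-4 * y ^ 2 * s + 2 * x * B₁) y hy
  let D : ℂ → ℂ := fun z => 1 - 2 * s * (z * μ z) + δ * (z * μ z) ^ 2
  have hm : MA fun z => z * μ z := MA.id.mul hμ
  have hD : MA D := ((MA.const 1).sub (hm.cmul _)).add ((hm.pow 2).cmul _)
  have D0 : D 0 = 1 := by simp [D]
  have D0' : D 0 ≠ 0 := by rw [D0]; exact one_ne_zero
  refine ⟨fun z => 2 * x * μ z / D z, fun z => x * (1 - δ * (z * μ z) ^ 2) / D z,
    fun z => w z / D z, (hμ.cmul _).div hD D0',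
    (((MA.const 1).sub ((hm.pow 2).cmul _)).cmul _).div hD D0', hw.div hD D0', ?_, ?_, ?_, ?_⟩
  · simp only [D0, div_one]
    exact mul_ne_zero (mul_ne_zero two_ne_zero hx) μ0
  · simp [D0]
  · simp [D0, w0]
  filter_upwards [h, hD.ev_ne D0'] with z hz hDz
  have hA : A₁ = 2 * x * s := by
    simp only [s]
    field_simp
  have hA2 : A₂ = s ^ 2 - δ := by simp [δ]
  have hDe : D z = 1 - 2 * s * (z * μ z) + δ * (z * μ z) ^ 2 := rfl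
  constructor
  · rw [hA, hA2]
    field_simp
    rw [hDe]
    ring
  · field_simp
    rw [hz, hDe]
    ring

end Pool.Agent.H892Z.Ell
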