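import Mathlib

/-!
Projective algebraic sets, entire curves and pseudo-Brody hyperbolicity.
-/

set_option autoImplicit false

namespace Pool.Agent.H892Z.Ell

open Filter Topology
open scoped LinearAlgebra.Projectivization

variable {N : ℕ}

/-- The common zero set in complex projective space of a set of polynomials, evaluated at a
representative vector (used for homogeneous polynomials only). -/
def zeroSet (S : Set (MvPolynomial (Fin N) ℂ)) : Set (ℙ ℂ (Fin N → ℂ)) :=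
  {p | ∀ F ∈ S, MvPolynomial.eval p.rep F = 0}

/-- Zariski closed subsets of projective space. -/
def IsZariskiClosed (Z : Set (ℙ ℂ (Fin N → ℂ))) : Prop :=
  ∃ S : Set (MvPolynomial (Fin N) ℂ), (∀ F ∈ S, ∃ d : ℕ, F.IsHomogeneous d) ∧ Z = zeroSet S

/-- Irreducibility for the Zariski topology. -/
def IsZariskiIrreducible (X : Set (ℙ ℂ (Fin N → ℂ))) : Prop :=
  X.Nonempty ∧ ∀ Z₁ Z₂ : Set (ℙ ℂ (Fin N → ℂ)), IsZariskiClosed Z₁ → IsZariskiClosed Z₂ →
    X ⊆ Z₁ ∪ Z₂ → X ⊆ Z₁ ∨ X ⊆ Z₂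

/-- `X` lies in no hyperplane. -/
def IsNondegenerate (X : Set (ℙ ℂ (Fin N → ℂ))) : Prop :=
  ∀ ψ : (Fin N → ℂ) →ₗ[ℂ] ℂ, (∀ p ∈ X, ψ p.rep = 0) → ψ = 0

/-- A holomorphic map from the complex line to projective space: near every point it has an
analytic lift without zeros. -/
def IsHolomorphic (f : ℂ → ℙ ℂ (Fin N → ℂ)) : Prop :=
  ∀ z₀ : ℂ, ∃ g : ℂ → Fin N → ℂ, AnalyticAt ℂ g z₀ ∧
    ∀ᶠ z in 𝓝 z₀, ∃ h : g z ≠ 0, f z = Projectivization.mk ℂ (g z) h

/-- An entire curve in `X`: a non-constant holomorphic map from the complex line with values in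
`X`. -/
def IsEntireCurve (X : Set (ℙ ℂ (Fin N → ℂ))) (f : ℂ → ℙ ℂ (Fin N → ℂ)) : Prop :=
  IsHolomorphic f ∧ (∀ z, f z ∈ X) ∧ ∃ z w, f z ≠ f w

/-- `X` is pseudo-Brody hyperbolic: a proper Zariski closed subset contains all entire curves. -/
def IsPseudoBrodyHyperbolic (X : Set (ℙ ℂ (Fin N → ℂ))) : Prop :=
  ∃ Z : Set (ℙ ℂ (Fin N → ℂ)), IsZariskiClosed Z ∧ Z ⊂ X ∧
    ∀ f, IsEntireCurve X f → ∀ z, f z ∈ Z

/-- A complex reflection of order `r`: a linear map of order exactly `r` whose fixed space is a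
hyperplane. -/
def IsReflection (r : ℕ) (σ : Module.End ℂ (Fin N → ℂ)) : Prop :=
  orderOf σ = r ∧ Module.finrank ℂ (LinearMap.range (σ - 1)) = 1

end Pool.Agent.H892Z.Ell
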