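import Mathlib

/-!
Fewer equations than unknowns: a solution is never the only one.
-/

set_option autoImplicit false

namespace Pool.Agent.H892Z.Ell

open MvPolynomial

theorem height_max (n : ℕ) : ∀ (M : Ideal (MvPolynomial (Fin n) ℂ)), M.IsMaximal →
    (n : ℕ∞) ≤ M.height := by
  induction n with
  | zero => intro M _; simp
  | succ n ih =>
    intro M hM
    let e := MvPolynomial.finSuccEquiv ℂ n
    let P : Ideal (Polynomial (MvPolynomial (Fin n) ℂ)) := M.map e.toRingEquiv
    have hP : P.IsMaximal := Ideal.map_isMaximal_of_equiv e.toRingEquiv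
    have h1 : P.height = M.height := RingEquiv.height_map e.toRingEquiv M
    let p : Ideal (MvPolynomial (Fin n) ℂ) := P.comap Polynomial.C
    have hp : p.IsMaximal := Polynomial.isMaximal_comap_C_of_isJacobsonRing P
    have hl : P.LiesOver p := ⟨rfl⟩
    have h2 := Polynomial.height_eq_height_add_one p P
    rw [← h1, h2]
    push_cast
    exact add_le_add_left (ih p hp) 1

theorem exists_other_zero_fin {n : ℕ} {κ : Type} [Fintype κ] (hκ : Fintype.card κ < n)
    (f : κ → MvPolynomial (Fin n) ℂ) (x₀ : Fin n → ℂ) (h₀ : ∀ j, eval x₀ (f j) = 0) :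
    ∃ x, x ≠ x₀ ∧ ∀ j, eval x (f j) = 0 := by
  classical
  by_contra hcon
  push Not at hcon
  let s : Finset (MvPolynomial (Fin n) ℂ) := Finset.univ.image f
  let I : Ideal (MvPolynomial (Fin n) ℂ) := Ideal.span (s : Set _)
  have hZ : zeroLocus ℂ I = {x₀} := by
    ext x
    simp only [I, zeroLocus_span, Set.mem_singleton_iff, s, Finset.coe_image, Finset.coe_univ,
      Set.image_univ, Set.mem_setOf_eq, Set.forall_mem_range, aeval_eq_eval]
    constructor
    · intro h
      by_contra hne
      obtain ⟨j, hj⟩ := hcon x hne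
      exact hj (h j)
    · rintro rfl
      exact h₀
  have hrad : vanishingIdeal ℂ ({x₀} : Set (Fin n → ℂ)) = I.radical := by
    rw [← hZ, vanishingIdeal_zeroLocus_eq_radical]
  have hmax : (vanishingIdeal ℂ ({x₀} : Set (Fin n → ℂ))).IsMaximal := inferInstance
  have hmin : vanishingIdeal ℂ ({x₀} : Set (Fin n → ℂ)) ∈ I.minimalPrimes := by
    rw [← Ideal.radical_minimalPrimes, ← hrad, Ideal.minimalPrimes_eq_subsingleton_self]
    rfl
  have h1 := Ideal.height_le_card_of_mem_minimalPrimes_span_finset hmin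
  have h2 := height_max n _ hmax
  have h3 : s.card ≤ Fintype.card κ := Finset.card_image_le
  have h4 : (n : ℕ∞) ≤ (s.card : ℕ∞) := h2.trans h1
  have h5 : n ≤ s.card := by exact_mod_cast h4
  omega

theorem exists_other_zero {σ κ : Type} [Fintype σ] [Fintype κ]
    (hκ : Fintype.card κ < Fintype.card σ) (f : κ → MvPolynomial σ ℂ) (x₀ : σ → ℂ)
    (h₀ : ∀ j, eval x₀ (f j) = 0) : ∃ x, x ≠ x₀ ∧ ∀ j, eval x (f j) = 0 := by
  let e := Fintype.equivFin σ
  obtain ⟨x, h1, h2⟩ := exists_other_zero_fin hκ (fun j => rename e (f j)) (x₀ ∘ e.symm)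
    (fun j => by
      rw [eval_rename]
      convert h₀ j using 3
      funext i
      simp)
  refine ⟨x ∘ e, fun h => h1 ?_, fun j => ?_⟩
  · rw [← h]
    funext i
    simp
  · rw [← eval_rename]
    exact h2 j

end Pool.Agent.H892Z.Ell
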