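import Mathlib
import Pool.Agent.H892Z.Ell.Defs

/-!
A meromorphic vector function defines a holomorphic map to projective space.
-/

set_option autoImplicit false

namespace Pool.Agent.H892Z.Ell

open Filter Topology MvPolynomial
open scoped LinearAlgebra.Projectivization

variable {N : ℕ}

theorem eval_smul_hom {σ : Type} {F : MvPolynomial σ ℂ} {d : ℕ} (hF : F.IsHomogeneous d) (c : ℂ)
    (x : σ → ℂ) : eval (c • x) F = c ^ d * eval x F := by
  classical
  rw [eval_eq, eval_eq, Finset.mul_sum]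
  refine Finset.sum_congr rfl fun m hm => ?_
  have h1 : ∑ i ∈ m.support, m i = d := by
    have := hF (mem_support_iff.1 hm)
    rw [← this, Finsupp.weight_apply, Finsupp.sum]
    simp
  simp only [Pi.smul_apply, smul_eq_mul, mul_pow, Finset.prod_mul_distrib,
    Finset.prod_pow_eq_pow_sum, h1]
  ring

theorem eval_rep_mk {F : MvPolynomial (Fin N) ℂ} {d : ℕ} (hF : F.IsHomogeneous d)
    (v : Fin N → ℂ) (hv : v ≠ 0) :
    eval (Projectivization.mk ℂ v hv).rep F = 0 ↔ eval v F = 0 := by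
  obtain ⟨a, ha⟩ := Projectivization.exists_smul_eq_mk_rep ℂ v hv
  rw [← ha, Units.smul_def, eval_smul_hom hF, mul_eq_zero]
  simp

theorem mero_eval (F : MvPolynomial (Fin N) ℂ) {Φ : ℂ → Fin N → ℂ} {z : ℂ}
    (h : ∀ i, MeromorphicAt (fun w => Φ w i) z) : MeromorphicAt (fun w => eval (Φ w) F) z := by
  induction F using MvPolynomial.induction_on with
  | C a => simpa using MeromorphicAt.const a z
  | add p q hp hq => simpa using hp.fun_add hq
  | mul_X p i hp => simpa using hp.fun_mul (h i)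

theorem mero_pi {Φ : ℂ → Fin N → ℂ} {z : ℂ} (h : ∀ i, MeromorphicAt (fun w => Φ w i) z) :
    MeromorphicAt Φ z := by
  classical
  have : Φ = fun w => ∑ i, Φ w i • (Pi.single i (1 : ℂ) : Fin N → ℂ) := by
    funext w j
    simp [Finset.sum_apply, Pi.single_apply]
  rw [this]
  exact MeromorphicAt.fun_sum fun i _ => (h i).fun_smul (MeromorphicAt.const _ z)

theorem entire_of_mero (Φ : ℂ → Fin N → ℂ) (hΦ : ∀ i, Meromorphic fun w => Φ w i)
    (han : ∀ i, AnalyticAt ℂ (fun w => Φ w i) 0) (h0 : Φ 0 ≠ 0) :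
    ∃ f : ℂ → ℙ ℂ (Fin N → ℂ), IsHolomorphic f ∧
      (∀ᶠ z in 𝓝 (0 : ℂ), ∃ h : Φ z ≠ 0, f z = Projectivization.mk ℂ (Φ z) h) ∧
      ∀ (F : MvPolynomial (Fin N) ℂ) (d : ℕ), F.IsHomogeneous d →
        (∀ᶠ z in 𝓝 (0 : ℂ), eval (Φ z) F = 0) → ∀ z, eval (f z).rep F = 0 := by
  have hm : Meromorphic Φ := fun z => mero_pi fun i => hΦ i z
  have ha : AnalyticAt ℂ Φ 0 := analyticAt_pi_iff.2 han
  have hev0 : ∀ᶠ z in 𝓝 (0 : ℂ), Φ z ≠ 0 := ha.continuousAt.eventually_ne h0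
  have ho0 : meromorphicOrderAt Φ 0 ≠ ⊤ :=
    (meromorphicOrderAt_ne_top_iff_eventually_ne_zero (hm 0)).2 (hev0.filter_mono nhdsWithin_le_nhds)
  have ho : ∀ z, meromorphicOrderAt Φ z ≠ ⊤ := fun z =>
    (hm.meromorphicOn (s := Set.univ)).meromorphicOrderAt_ne_top_of_isPreconnected
      isPreconnected_univ (Set.mem_univ 0) (Set.mem_univ z) ho0
  have hT : ∀ z, meromorphicTrailingCoeffAt Φ z ≠ 0 := fun z =>
    (hm z).meromorphicTrailingCoeffAt_ne_zero (ho z)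
  let f : ℂ → ℙ ℂ (Fin N → ℂ) := fun z =>
    Projectivization.mk ℂ (meromorphicTrailingCoeffAt Φ z) (hT z)
  have key : ∀ (z₀ : ℂ) (n : ℤ) (g : ℂ → Fin N → ℂ), AnalyticAt ℂ g z₀ → g z₀ ≠ 0 →
      (Φ =ᶠ[𝓝[≠] z₀] fun z ↦ (z - z₀) ^ n • g z) →
      ∀ᶠ z in 𝓝 z₀, ∃ h : g z ≠ 0, f z = Projectivization.mk ℂ (g z) h := by
    intro z₀ n g g1 g2 g3
    have g4 : ∀ᶠ z in 𝓝 z₀, g z ≠ 0 := g1.continuousAt.eventually_ne g2
    have g5 : ∀ᶠ z in 𝓝 z₀, ∀ᶠ w in 𝓝 z, w ≠ z₀ → Φ w = (w - z₀) ^ n • g w :=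
      (eventually_nhdsWithin_iff.1 g3).eventually_nhds
    filter_upwards [g4, g5, g1.eventually_analyticAt] with z h4 h5 h6
    refine ⟨h4, ?_⟩
    by_cases hz : z = z₀
    · subst hz
      have := g1.meromorphicTrailingCoeffAt_of_ne_zero_of_eq_nhdsNE g2 g3
      simp only [f]
      congr 1
    · have hz' : z - z₀ ≠ 0 := sub_ne_zero.2 hz
      have a1 : AnalyticAt ℂ (fun w => (w - z₀) ^ n • g w) z :=
        ((analyticAt_id.sub analyticAt_const).zpow hz').smul h6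
      have a2 : (z - z₀) ^ n • g z ≠ 0 := smul_ne_zero (zpow_ne_zero _ hz') h4
      have a3 : Φ =ᶠ[𝓝[≠] z] fun w ↦ (w - z) ^ (0 : ℤ) • ((w - z₀) ^ n • g w) := by
        have a4 : ∀ᶠ w in 𝓝 z, w ≠ z₀ := eventually_ne_nhds hz
        filter_upwards [h5.filter_mono nhdsWithin_le_nhds, a4.filter_mono nhdsWithin_le_nhds]
          with w h7 h8
        rw [zpow_zero, one_smul]
        exact h7 h8
      have a5 := a1.meromorphicTrailingCoeffAt_of_ne_zero_of_eq_nhdsNE a2 a3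
      simp only [f]
      rw [Projectivization.mk_eq_mk_iff']
      exact ⟨(z - z₀) ^ n, a5.symm⟩
  refine ⟨f, fun z₀ => ?_, ?_, fun F d hF hF0 z₀ => ?_⟩
  · obtain ⟨g, g1, g2, g3⟩ := (meromorphicOrderAt_ne_top_iff (hm z₀)).1 (ho z₀)
    exact ⟨g, g1, key z₀ _ g g1 g2 g3⟩
  · exact key 0 0 Φ ha h0 (Eventually.of_forall fun z => by simp)
  · have m1 : Meromorphic fun w => eval (Φ w) F := fun z => mero_eval F fun i => hΦ i z
    have m2 : meromorphicOrderAt (fun w => eval (Φ w) F) z₀ = ⊤ := by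
      by_contra hne
      refine (m1.meromorphicOn (s := Set.univ)).meromorphicOrderAt_ne_top_of_isPreconnected
        isPreconnected_univ (Set.mem_univ z₀) (Set.mem_univ 0) hne ?_
      exact meromorphicOrderAt_eq_top_iff.2 (hF0.filter_mono nhdsWithin_le_nhds)
    have m3 := meromorphicOrderAt_eq_top_iff.1 m2
    obtain ⟨g, g1, g2, g3⟩ := (meromorphicOrderAt_ne_top_iff (hm z₀)).1 (ho z₀)
    have m4 : ∀ᶠ w in 𝓝[≠] z₀, eval (g w) F = 0 := by
      filter_upwards [m3, g3, self_mem_nhdsWithin] with w h1 h2 h3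
      rw [h2, eval_smul_hom hF, mul_eq_zero] at h1
      exact h1.resolve_left (pow_ne_zero _ (zpow_ne_zero _ (sub_ne_zero.2 h3)))
    have m5 : ContinuousAt (fun w => eval (g w) F) z₀ :=
      (MvPolynomial.continuous_eval F).continuousAt.comp g1.continuousAt
    have m6 : eval (g z₀) F = 0 :=
      tendsto_nhds_unique (m5.tendsto.mono_left nhdsWithin_le_nhds)
        (tendsto_const_nhds.congr' (m4.mono fun w hw => hw.symm))
    obtain ⟨h, hf⟩ := (key z₀ _ g g1 g2 g3).self_of_nhds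
    rw [hf, eval_rep_mk hF]
    exact m6

end Pool.Agent.H892Z.Ell
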