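import Mathlib
import Pool.Agent.H892Z.Ell.Krull
import Pool.Agent.H892Z.Ell.Proj
import Pool.Agent.H892Z.Ell.Curves

/-!
Curves `ξ_s ^ r_s = U_s(τ)` over a line through a given point of a symmetric projective variety.
-/

set_option autoImplicit false

namespace Pool.Agent.H892Z.Ell

open Filter Topology MvPolynomial
open scoped LinearAlgebra.Projectivization

variable {N : ℕ} {S : Type} [Fintype S]

/-- substitution of `U s` for `ξ_s ^ r_s` -/
noncomputable def gs {R : Type} [CommRing R] [Algebra ℂ R] (H : MvPolynomial (S ⊕ Fin N) ℂ)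
    (r : S → ℕ) (U : S → R) (x : Fin N → R) : R :=
  ∑ α ∈ H.support, algebraMap ℂ R (coeff α H) *
    ((∏ s, U s ^ (α (Sum.inl s) / r s)) * ∏ k, x k ^ α (Sum.inr k))

theorem gs_map {R R' : Type} [CommRing R] [Algebra ℂ R] [CommRing R'] [Algebra ℂ R']
    (ψ : R →ₐ[ℂ] R') (H : MvPolynomial (S ⊕ Fin N) ℂ) (r : S → ℕ) (U : S → R) (x : Fin N → R) :
    ψ (gs H r U x) = gs H r (fun s => ψ (U s)) (fun k => ψ (x k)) := by
  simp [gs, map_sum, map_mul, map_prod, map_pow]

theorem gs_val (H : MvPolynomial (S ⊕ Fin N) ℂ) (r : S → ℕ)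
    (hH : ∀ α ∈ H.support, ∀ s, r s ∣ α (Sum.inl s)) (ξ : S → ℂ) (x : Fin N → ℂ) :
    gs H r (fun s => ξ s ^ r s) x = eval (Sum.elim ξ x) H := by
  rw [eval_eq', gs]
  refine Finset.sum_congr rfl fun α hα => ?_
  rw [Fintype.prod_sum_type]
  simp only [Sum.elim_inl, Sum.elim_inr, Algebra.algebraMap_self, RingHom.id_apply]
  congr 2
  refine Finset.prod_congr rfl fun s _ => ?_
  rw [← pow_mul, Nat.mul_div_cancel' (hH α hα s)]

theorem gs_deg (H : MvPolynomial (S ⊕ Fin N) ℂ) {d : ℕ} (hH : H.IsHomogeneous d) (r : S → ℕ)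
    (U : S → Polynomial ℂ) (hU : ∀ s, (U s).natDegree ≤ r s) (x : Fin N → Polynomial ℂ)
    (hx : ∀ k, (x k).natDegree ≤ 1) : (gs H r U x).natDegree ≤ d := by
  classical
  unfold gs
  refine Polynomial.natDegree_sum_le_of_forall_le _ _ fun α hα => ?_
  have h1 : ∑ i, α i = d := by
    have := hH (mem_support_iff.1 hα)
    rw [← this, Finsupp.weight_apply, Finsupp.sum_fintype _ _ (by simp)]
    simp
  rw [Fintype.sum_sum_type] at h1
  rw [Polynomial.algebraMap_apply]
  refine (Polynomial.natDegree_C_mul_le _ _).trans (Polynomial.natDegree_mul_le.trans ?_)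
  rw [← h1]
  refine add_le_add ((Polynomial.natDegree_prod_le _ _).trans (Finset.sum_le_sum fun s _ => ?_))
    ((Polynomial.natDegree_prod_le _ _).trans (Finset.sum_le_sum fun k _ => ?_))
  · refine Polynomial.natDegree_pow_le.trans ?_
    exact (Nat.mul_le_mul_left _ (hU s)).trans (Nat.div_mul_le_self _ _)
  · refine Polynomial.natDegree_pow_le.trans ?_
    simpa using Nat.mul_le_mul_left (α (Sum.inr k)) (hx k)

theorem coeff_scale {σ : Type} [Fintype σ] (w : σ → ℂ) (H : MvPolynomial σ ℂ) (α : σ →₀ ℕ) :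
    coeff α (aeval (fun i => C (w i) * X i : σ → MvPolynomial σ ℂ) H) =
      (∏ i, w i ^ α i) * coeff α H := by
  classical
  induction H using MvPolynomial.induction_on' with
  | monomial m a =>
    have : aeval (fun i => C (w i) * X i : σ → MvPolynomial σ ℂ) (monomial m a) =
        monomial m ((∏ i, w i ^ m i) * a) := by
      rw [aeval_monomial, monomial_eq, Finsupp.prod_fintype _ _ (by simp),
        Finsupp.prod_fintype _ _ (by simp)]
      simp only [mul_pow, Finset.prod_mul_distrib, algebraMap_eq, map_mul, map_prod, map_pow]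
      ring
    rw [this, coeff_monomial, coeff_monomial]
    split_ifs with h
    · rw [h]
    · simp
  | add p q hp hq => simp only [map_add, coeff_add, hp, hq, mul_add]

theorem dvd_of_inv {σ : Type} [Fintype σ] [DecidableEq σ] (H : MvPolynomial σ ℂ) (i : σ) (ζ : ℂ)
    (r : ℕ) (hζ : IsPrimitiveRoot ζ r)
    (h : ∀ x : σ → ℂ, eval (fun k => (if k = i then ζ else 1) * x k) H = eval x H) :
    ∀ α ∈ H.support, r ∣ α i := by
  intro α hα
  have h1 : aeval (fun k => C (if k = i then ζ else 1) * X k : σ → MvPolynomial σ ℂ) H = H := by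
    apply MvPolynomial.funext
    intro x
    rw [← h x, ← aeval_eq_eval, ← aeval_eq_eval, ← AlgHom.comp_apply, comp_aeval]
    simp
  have h2 := coeff_scale (fun k => if k = i then ζ else 1) H α
  rw [h1] at h2
  have h3 : ∏ k, (if k = i then ζ else 1) ^ α k = ζ ^ α i := by
    rw [Finset.prod_eq_single i]
    · simp
    · intro k _ hk
      simp [hk]
    · simp
  rw [h3] at h2
  have h4 : ζ ^ α i = 1 := by
    have h5 := mem_support_iff.1 hα
    have : (ζ ^ α i - 1) * coeff α H = 0 := by linear_combination -h2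
    exact sub_eq_zero.1 ((mul_eq_zero.1 this).resolve_right h5)
  exact (hζ.pow_eq_one_iff_dvd _).1 h4

/-- a linear form as a polynomial -/
noncomputable def linP {σ : Type} (e : Fin N → σ) (ψ : (Fin N → ℂ) →ₗ[ℂ] ℂ) : MvPolynomial σ ℂ :=
  ∑ k, C (ψ (Pi.single k 1)) * X (e k)

theorem eval_linP {σ : Type} (e : Fin N → σ) (ψ : (Fin N → ℂ) →ₗ[ℂ] ℂ) (x : σ → ℂ) :
    eval x (linP e ψ) = ψ (fun k => x (e k)) := by
  rw [LinearMap.pi_apply_eq_sum_univ ψ (fun k => x (e k))]
  simp only [linP, map_sum, map_mul, eval_C, eval_X, smul_eq_mul]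
  refine Finset.sum_congr rfl fun k _ => ?_
  rw [mul_comm]
  congr 2
  funext j
  simp [Pi.single_apply, eq_comm]

theorem linP_hom {σ : Type} (e : Fin N → σ) (ψ : (Fin N → ℂ) →ₗ[ℂ] ℂ) :
    (linP e ψ).IsHomogeneous 1 :=
  IsHomogeneous.sum _ _ _ fun k _ => (isHomogeneous_X ℂ (e k)).C_mul _

theorem exists_lift [DecidableEq S] (v : S → Fin N → ℂ) (φ : S → (Fin N → ℂ) →ₗ[ℂ] ℂ)
    (hφ : ∀ s t, φ s (v t) = if s = t then 1 else 0) (r : S → ℕ) (ζ : S → ℂ)
    (hζ : ∀ s, IsPrimitiveRoot (ζ s) (r s)) (F : MvPolynomial (Fin N) ℂ) (d : ℕ)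
    (hF : F.IsHomogeneous d)
    (hinv : ∀ s x, eval (x + ((ζ s - 1) * φ s x) • v s) F = eval x F) :
    ∃ H : MvPolynomial (S ⊕ Fin N) ℂ, H.IsHomogeneous d ∧
      (∀ α ∈ H.support, ∀ s, r s ∣ α (Sum.inl s)) ∧
      ∀ (ξ : S → ℂ) (x : Fin N → ℂ), (∀ s, φ s x = 0) →
        eval (Sum.elim ξ x) H = eval (x + ∑ s, ξ s • v s) F := by
  let L : Fin N → MvPolynomial (S ⊕ Fin N) ℂ := fun i =>
    X (Sum.inr i) + ∑ s, C (v s i) * (X (Sum.inl s) - linP Sum.inr (φ s))
  have hL : ∀ i, (L i).IsHomogeneous 1 := fun i =>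
    (isHomogeneous_X ℂ _).add (IsHomogeneous.sum _ _ _ fun s _ =>
      ((isHomogeneous_X ℂ _).sub (linP_hom _ _)).C_mul _)
  have hev : ∀ y : S ⊕ Fin N → ℂ, eval y (aeval L F) =
      eval ((fun k => y (Sum.inr k)) +
        ∑ s, (y (Sum.inl s) - φ s fun k => y (Sum.inr k)) • v s) F := by
    intro y
    rw [← aeval_eq_eval, ← aeval_eq_eval, ← AlgHom.comp_apply, comp_aeval]
    congr 2
    funext i
    simp only [L, aeval_eq_eval, map_add, map_sum, map_mul, map_sub, eval_X, eval_C, eval_linP,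
      Pi.add_apply, Finset.sum_apply, Pi.smul_apply, smul_eq_mul]
    congr 1
    exact Finset.sum_congr rfl fun s _ => mul_comm _ _
  refine ⟨aeval L F, by simpa using hF.aeval L hL, fun α hα s => ?_, fun ξ x hx => ?_⟩
  · refine dvd_of_inv (aeval L F) (Sum.inl s) (ζ s) (r s) (hζ s) (fun y => ?_) α hα
    rw [hev, hev, ← hinv s ((fun k => y (Sum.inr k)) +
        ∑ s, (y (Sum.inl s) - φ s fun k => y (Sum.inr k)) • v s)]
    have h1 : φ s ((fun k => y (Sum.inr k)) +
        ∑ s, (y (Sum.inl s) - φ s fun k => y (Sum.inr k)) • v s) = y (Sum.inl s) := by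
      rw [map_add, map_sum]
      simp [hφ]
    rw [h1]
    congr 2
    simp only [reduceCtorEq, if_false, one_mul, Sum.inl.injEq]
    rw [add_assoc]
    congr 1
    have h2 : ∀ t, ((if t = s then ζ s else 1) * y (Sum.inl t) - φ t fun k => y (Sum.inr k)) • v t =
        (y (Sum.inl t) - φ t fun k => y (Sum.inr k)) • v t +
          if t = s then ((ζ s - 1) * y (Sum.inl s)) • v s else 0 := by
      intro t
      by_cases h : t = s
      · subst h
        simp only [if_true]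
        rw [← add_smul]
        congr 1
        ring
      · simp [h]
    simp only [h2, Finset.sum_add_distrib, Finset.sum_ite_eq', Finset.mem_univ, if_true]
  · rw [hev]
    simp [hx]

theorem poly_eq_zero (Q : Polynomial ℂ) (ν : ℂ → ℂ) (hν : MA ν) (h0 : ν 0 ≠ 0)
    (h : ∀ᶠ z in 𝓝[≠] (0 : ℂ), Q.eval (z * ν z) = 0) : Q = 0 := by
  by_contra hQ
  have h1 : ∀ᶠ t in 𝓝[≠] (0 : ℂ), ¬ Q.IsRoot t :=
    (Polynomial.eventually_cofinite_not_isRoot hQ).filter_mono (nhdsNE_le_cofinite 0)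
  have h2 : Tendsto (fun z => z * ν z) (𝓝[≠] 0) (𝓝[≠] 0) := by
    refine tendsto_nhdsWithin_iff.2 ⟨?_, ?_⟩
    · have := (MA.id.mul hν).2.continuousAt.tendsto
      simp only [zero_mul] at this
      exact this.mono_left nhdsWithin_le_nhds
    · filter_upwards [self_mem_nhdsWithin, (hν.ev_ne h0).filter_mono nhdsWithin_le_nhds]
        with z h3 h4
      exact mul_ne_zero h3 h4
  obtain ⟨z, h3, h4⟩ := ((h2.eventually h1).and h).exists
  exact h3 h4

theorem sweep [DecidableEq S] {κ W : Type} [Fintype κ] [Fintype W]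
    (v : S → Fin N → ℂ) (φ : S → (Fin N → ℂ) →ₗ[ℂ] ℂ)
    (hφ : ∀ s t, φ s (v t) = if s = t then 1 else 0) (r : S → ℕ) (ζ : S → ℂ)
    (hζ : ∀ s, IsPrimitiveRoot (ζ s) (r s)) (F : κ → MvPolynomial (Fin N) ℂ) (d : κ → ℕ)
    (hF : ∀ j, (F j).IsHomogeneous (d j))
    (hinv : ∀ j s x, eval (x + ((ζ s - 1) * φ s x) • v s) (F j) = eval x (F j))
    (hcount : ∑ j, d j + Fintype.card S < N + Fintype.card W)
    (p : Fin N → ℂ) (hp : p ≠ 0) (hpF : ∀ j, eval p (F j) = 0) (hy : p ≠ ∑ s, φ s p • v s)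
    (u : S → (W → ℂ) → ℂ → ℂ)
    (hu1 : ∀ s t, ∃ A : MvPolynomial W ℂ, ∀ w, eval w A = u s w t)
    (hu2 : ∀ s w, ∃ Q : Polynomial ℂ, Q.natDegree ≤ r s ∧ ∀ t, Q.eval t = u s w t)
    (hu3 : ∀ s w, u s w 0 = φ s p ^ r s) (hu4 : ∀ s t, u s 0 t = φ s p ^ r s)
    (hcurve : ∀ w, ∃ (ν : ℂ → ℂ) (ξ : S → ℂ → ℂ), MA ν ∧ (∀ s, MA (ξ s)) ∧ ν 0 ≠ 0 ∧
      (∀ s, ξ s 0 = φ s p) ∧ ∀ᶠ z in 𝓝 (0 : ℂ), ∀ s, ξ s z ^ r s = u s w (z * ν z))
    (hrigid : ∀ w c, (∀ s t, u s w t = ((1 + c * t) * φ s p) ^ r s) → c = 0 ∧ w = 0) :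
    ∃ f, IsEntireCurve (zeroSet (Set.range F)) f ∧ f 0 = Projectivization.mk ℂ p hp := by
  classical
  choose H hH1 hH2 hH3 using fun j => exists_lift v φ hφ r ζ hζ (F j) (d j) (hF j) (hinv j)
  choose A hA using hu1
  let y : Fin N → ℂ := p - ∑ s, φ s p • v s
  have hy0 : y ≠ 0 := sub_ne_zero.2 hy
  have hφy : ∀ s, φ s y = 0 := by
    intro s
    simp only [y]
    rw [map_sub, map_sum]
    simp [hφ]
  have hpy : y + ∑ s, φ s p • v s = p := by simp [y]
  let E : (Σ j, Fin (d j)) ⊕ S → MvPolynomial (Fin N ⊕ W) ℂ := fun q =>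
    match q with
    | Sum.inl q => gs (H q.1) r (fun s => rename Sum.inr (A s ((q.2 : ℕ) + 1)))
        (fun k => C (y k) + C (((q.2 : ℕ) : ℂ) + 1) * X (Sum.inl k))
    | Sum.inr s => linP Sum.inl (φ s)
  have hE : ∀ (x : Fin N ⊕ W → ℂ) (j : κ) (i : Fin (d j)), eval x (E (Sum.inl ⟨j, i⟩)) =
      gs (H j) r (fun s => u s (fun k => x (Sum.inr k)) ((i : ℕ) + 1))
        (fun k => y k + (((i : ℕ) : ℂ) + 1) * x (Sum.inl k)) := by
    intro x j i
    have := gs_map (aeval x : MvPolynomial (Fin N ⊕ W) ℂ →ₐ[ℂ] ℂ) (H j) r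
      (fun s => rename Sum.inr (A s ((i : ℕ) + 1)))
      (fun k => C (y k) + C (((i : ℕ) : ℂ) + 1) * X (Sum.inl k))
    simp only [aeval_eq_eval, eval_rename, map_add, map_mul, eval_C, eval_X] at this
    simp only [E, map_add]
    rw [this]
    congr 1
    · funext s
      exact hA s _ _
  have hbase : ∀ j, gs (H j) r (fun s => φ s p ^ r s) y = 0 := by
    intro j
    rw [gs_val _ _ (hH2 j), hH3 j _ _ hφy, hpy, hpF]
  obtain ⟨x, hx0, hx⟩ := exists_other_zero (σ := Fin N ⊕ W) (κ := (Σ j, Fin (d j)) ⊕ S)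
    (by simpa using hcount) E 0 (fun q => by
      rcases q with ⟨j, i⟩ | s
      · rw [hE]
        have h1 : (fun s => u s (fun k => (0 : Fin N ⊕ W → ℂ) (Sum.inr k)) ((i : ℕ) + 1)) =
            fun s => φ s p ^ r s := funext fun s => hu4 s _
        rw [h1]
        simpa using hbase j
      · simp only [E]
        rw [eval_linP]
        exact map_zero _)
  let P : Fin N → ℂ := fun k => x (Sum.inl k)
  let w : W → ℂ := fun k => x (Sum.inr k)
  have hφP : ∀ s, φ s P = 0 := by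
    intro s
    have := hx (Sum.inr s)
    simp only [E] at this
    rwa [eval_linP] at this
  have hall : ∀ j t, gs (H j) r (fun s => u s w t) (fun k => y k + t * P k) = 0 := by
    intro j
    choose Q hQ1 hQ2 using fun s => hu2 s w
    let G : Polynomial ℂ := gs (H j) r Q fun k => Polynomial.C (y k) + Polynomial.X * Polynomial.C (P k)
    have hG : ∀ t, G.eval t = gs (H j) r (fun s => u s w t) (fun k => y k + t * P k) := by
      intro t
      have := gs_map (Polynomial.aeval t : Polynomial ℂ →ₐ[ℂ] ℂ) (H j) r Q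
        fun k => Polynomial.C (y k) + Polynomial.X * Polynomial.C (P k)
      simp only [Polynomial.coe_aeval_eq_eval, Polynomial.eval_add, Polynomial.eval_mul,
        Polynomial.eval_C, Polynomial.eval_X, hQ2] at this
      exact this
    have hdeg : G.natDegree ≤ d j := by
      refine gs_deg _ (hH1 j) r Q hQ1 _ fun k => ?_
      compute_degree
    have hG0 : G = 0 := by
      refine Polynomial.eq_zero_of_natDegree_lt_card_of_eval_eq_zero G
        (f := fun i : Fin (d j + 1) => ((i : ℕ) : ℂ)) (fun a b h => Fin.ext (Nat.cast_injective (R := ℂ) h))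
        (fun i => ?_) (by simpa using Nat.lt_succ_of_le hdeg)
      rw [hG]
      refine Fin.cases ?_ (fun i => ?_) i
      · simp only [Fin.val_zero, Nat.cast_zero, hu3, zero_mul, add_zero]
        exact hbase j
      · have := hx (Sum.inl ⟨j, i⟩)
        rw [hE] at this
        simpa using this
    intro t
    rw [← hG, hG0, Polynomial.eval_zero]
  obtain ⟨ν, ξ, hν, hξ, ν0, ξ0, hc⟩ := hcurve w
  let Φ : ℂ → Fin N → ℂ := fun z => (y + (z * ν z) • P) + ∑ s, ξ s z • v s
  have hΦ : ∀ i, MA fun z => Φ z i := by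
    intro i
    have h1 : MA fun z => ∑ s, ξ s z * v s i :=
      ⟨fun z => MeromorphicAt.fun_sum fun s _ => ((hξ s).mul (MA.const _)).1 z,
        Finset.analyticAt_fun_sum _ fun s _ => ((hξ s).mul (MA.const _)).2⟩
    have h2 := ((MA.const (y i)).add ((MA.id.mul hν).mul (MA.const (P i)))).add h1
    simpa [Φ, Finset.sum_apply] using h2
  have hΦ0 : Φ 0 = p := by
    simp only [Φ, zero_mul, zero_smul, add_zero, ξ0]
    exact hpy
  obtain ⟨f, f1, f2, f3⟩ := entire_of_mero Φ (fun i => (hΦ i).1) (fun i => (hΦ i).2)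
    (by rw [hΦ0]; exact hp)
  have hφt : ∀ s (t : ℂ), φ s (y + t • P) = 0 := by
    intro s t
    rw [map_add, map_smul, hφy, hφP]
    simp
  have hf0 : f 0 = Projectivization.mk ℂ p hp := by
    obtain ⟨h, hf⟩ := f2.self_of_nhds
    rw [hf]
    congr 1
  refine ⟨f, ⟨f1, fun z G hG => ?_, ?_⟩, hf0⟩
  · obtain ⟨j, rfl⟩ := hG
    refine f3 (F j) (d j) (hF j) ?_ z
    filter_upwards [hc] with z hz
    have h1 := hall j (z * ν z)
    have h2 : (fun s => u s w (z * ν z)) = fun s => ξ s z ^ r s := funext fun s => (hz s).symm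
    rw [h2, gs_val _ _ (hH2 j)] at h1
    rw [← h1]
    exact (hH3 j _ _ fun s => hφt s _).symm
  by_contra hcon
  push Not at hcon
  have hφΦ : ∀ s z, φ s (Φ z) = ξ s z := by
    intro s z
    simp only [Φ]
    rw [map_add, hφt, map_sum]
    simp [hφ]
  have hl : ∀ᶠ z in 𝓝[≠] (0 : ℂ), ∃ l : ℂ, (∀ s, ξ s z = l * φ s p) ∧
      (z * ν z) • P = (l - 1) • y ∧ z * ν z ≠ 0 := by
    filter_upwards [f2.filter_mono nhdsWithin_le_nhds, self_mem_nhdsWithin,
      (hν.ev_ne ν0).filter_mono nhdsWithin_le_nhds] with z hz h3 h4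
    obtain ⟨h, hf⟩ := hz
    rw [hcon z 0, hf0, eq_comm, Projectivization.mk_eq_mk_iff'] at hf
    obtain ⟨l, hl⟩ := hf
    have h1 : ∀ s, ξ s z = l * φ s p := by
      intro s
      rw [← hφΦ, ← hl, map_smul, smul_eq_mul]
    refine ⟨l, h1, ?_, mul_ne_zero h3 h4⟩
    have h2 : (y + (z * ν z) • P) + ∑ s, ξ s z • v s = l • (y + ∑ s, φ s p • v s) := by
      rw [hpy]
      exact hl.symm
    rw [smul_add, Finset.smul_sum] at h2
    simp only [h1, mul_smul] at h2
    have h5 := add_right_cancel h2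
    rw [sub_smul, one_smul, ← h5, mul_smul]
    abel
  obtain ⟨c, hc0⟩ : ∃ c : ℂ, P = c • y := by
    obtain ⟨z, l, -, h2, h3⟩ := hl.exists
    refine ⟨(z * ν z)⁻¹ * (l - 1), ?_⟩
    rw [mul_smul, ← h2, smul_smul, inv_mul_cancel₀ h3, one_smul]
  have hrig : ∀ s t, u s w t = ((1 + c * t) * φ s p) ^ r s := by
    intro s
    obtain ⟨Q, -, hQ⟩ := hu2 s w
    have h1 : Q - ((1 + Polynomial.C c * Polynomial.X) * Polynomial.C (φ s p)) ^ r s = 0 := by
      refine poly_eq_zero _ ν hν ν0 ?_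
      filter_upwards [hl, hc.filter_mono nhdsWithin_le_nhds] with z hz h6
      obtain ⟨l, h1, h2, -⟩ := hz
      rw [hc0, smul_smul] at h2
      have h3 : z * ν z * c = l - 1 := smul_left_injective ℂ hy0 h2
      simp only [Polynomial.eval_sub, Polynomial.eval_pow, Polynomial.eval_mul, Polynomial.eval_add,
        Polynomial.eval_one, Polynomial.eval_C, Polynomial.eval_X, hQ]
      rw [← h6 s, h1 s, sub_eq_zero]
      congr 2
      linear_combination -h3
    intro t
    have h2 := congrArg (Polynomial.eval t) (sub_eq_zero.1 h1)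
    simpa [hQ] using h2
  obtain ⟨h1, h2⟩ := hrigid w c hrig
  apply hx0
  funext q
  rcases q with k | k
  · have : P k = 0 := by rw [hc0, h1]; simp
    exact this
  · exact congrFun h2 k

end Pool.Agent.H892Z.Ell
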