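import Mathlib
import Pool.Agent.H892Z.Ell.Sweep

/-!
Normal forms of reflections, and the passage from swept open sets to the failure of pseudo-Brody
hyperbolicity.
-/

set_option autoImplicit false

namespace Pool.Agent.H892Z.Ell

open Filter Topology MvPolynomial
open scoped LinearAlgebra.Projectivization

variable {N : ℕ}

theorem refl_form {r : ℕ} (hr : 2 ≤ r) {σ : Module.End ℂ (Fin N → ℂ)} (h : IsReflection r σ) :
    ∃ (v : Fin N → ℂ) (φ : (Fin N → ℂ) →ₗ[ℂ] ℂ) (ζ : ℂ), φ v = 1 ∧ IsPrimitiveRoot ζ r ∧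
      ∀ x, σ x = x + ((ζ - 1) * φ x) • v := by
  obtain ⟨h1, h2⟩ := h
  obtain ⟨v, hv0, hv⟩ := finrank_eq_one_iff'.1 h2
  have hv1 : (v : Fin N → ℂ) ≠ 0 := fun h => hv0 (Subtype.ext h)
  obtain ⟨μ, hμ⟩ := Module.Projective.exists_dual_eq_one ℂ hv1
  let l : (Fin N → ℂ) →ₗ[ℂ] ℂ := μ.comp (σ - 1)
  have hl : ∀ x, σ x = x + l x • (v : Fin N → ℂ) := by
    intro x
    obtain ⟨c, hc⟩ := hv ⟨(σ - 1) x, LinearMap.mem_range_self _ x⟩
    have h3 : c • (v : Fin N → ℂ) = (σ - 1) x := congrArg Subtype.val hc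
    have h4 : l x = c := by
      simp only [l, LinearMap.comp_apply]
      rw [← h3, map_smul, hμ, smul_eq_mul, mul_one]
    rw [h4, h3]
    simp
  let ζ : ℂ := 1 + l v
  have hpow : ∀ k : ℕ, ∀ x, (σ ^ k) x = x + (l x * ∑ i ∈ Finset.range k, ζ ^ i) • (v : Fin N → ℂ) := by
    intro k
    induction k with
    | zero => simp
    | succ k ih =>
      intro x
      rw [pow_succ', Module.End.mul_apply, ih, map_add, map_smul, hl x, hl v, geom_sum_succ]
      simp only [ζ]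
      module
  have hl0 : ∃ x, l x ≠ 0 := by
    by_contra h
    push Not at h
    have : σ = 1 := by
      refine LinearMap.ext fun x => ?_
      rw [hl, h]
      simp
    rw [this, orderOf_one] at h1
    omega
  obtain ⟨x₀, hx₀⟩ := hl0
  have hiff : ∀ k : ℕ, σ ^ k = 1 ↔ ∑ i ∈ Finset.range k, ζ ^ i = 0 := by
    intro k
    constructor
    · intro h
      have h3 := hpow k x₀
      rw [h, Module.End.one_apply, left_eq_add, smul_eq_zero, mul_eq_zero] at h3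
      tauto
    · intro h
      refine LinearMap.ext fun x => ?_
      rw [hpow, h]
      simp
  have hr0 := (hiff r).1 (by rw [← h1]; exact pow_orderOf_eq_one σ)
  have hζ1 : ζ ≠ 1 := by
    intro h
    rw [h] at hr0
    simp at hr0
    omega
  have hζ2 : ζ - 1 ≠ 0 := sub_ne_zero.2 hζ1
  have hg : ∀ k : ℕ, ∑ i ∈ Finset.range k, ζ ^ i = 0 ↔ ζ ^ k = 1 := by
    intro k
    rw [← sub_eq_zero (a := ζ ^ k), ← geom_sum_mul, mul_eq_zero]
    tauto
  refine ⟨v, (ζ - 1)⁻¹ • l, ζ, ?_, ⟨(hg r).1 hr0, fun k hk => ?_⟩, fun x => ?_⟩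
  · have : l v = ζ - 1 := by simp [ζ]
    rw [LinearMap.smul_apply, this, smul_eq_mul, inv_mul_cancel₀ hζ2]
  · rw [← h1]
    exact orderOf_dvd_of_pow_eq_one ((hiff k).2 ((hg k).2 hk))
  · rw [LinearMap.smul_apply, smul_eq_mul, mul_inv_cancel_left₀ hζ2]
    exact hl x

theorem refl_pair {σ τ : Module.End ℂ (Fin N → ℂ)} (hσ : IsReflection 2 σ) (hτ : IsReflection 2 τ)
    (hne : σ ≠ τ) (hc : Commute σ τ) :
    ∃ (v w : Fin N → ℂ) (φ ψ : (Fin N → ℂ) →ₗ[ℂ] ℂ), φ v = 1 ∧ ψ w = 1 ∧ φ w = 0 ∧ ψ v = 0 ∧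
      (∀ x, σ x = x + ((-1 - 1) * φ x) • v) ∧ ∀ x, τ x = x + ((-1 - 1) * ψ x) • w := by
  obtain ⟨v, φ, ζ, h1, h2, h3⟩ := refl_form le_rfl hσ
  obtain ⟨w, ψ, ζ', k1, k2, k3⟩ := refl_form le_rfl hτ
  rw [h2.eq_neg_one_of_two_right] at h3
  rw [k2.eq_neg_one_of_two_right] at k3
  have hcomm : ∀ x, (ψ x * φ w) • v = (φ x * ψ v) • w := by
    intro x
    have h4 : σ (τ x) = τ (σ x) := by
      rw [← Module.End.mul_apply, ← Module.End.mul_apply, hc.eq]
    rw [k3 x, h3 x, map_add, map_add, map_smul, map_smul, h3 x, h3 w, k3 x, k3 v] at h4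
    have h5 : (4 : ℂ) • ((ψ x * φ w) • v) = (4 : ℂ) • ((φ x * ψ v) • w) := by
      linear_combination (norm := module) h4
    exact smul_right_injective _ (by norm_num) h5
  have ha : φ w = 0 := by
    by_contra ha
    apply hne
    refine LinearMap.ext fun x => ?_
    rw [h3, k3]
    have h4 := hcomm w
    rw [k1, one_mul, mul_smul] at h4
    have h5 : v = ψ v • w := smul_right_injective _ ha h4
    have h6 : ψ v * φ w = 1 := by
      have := congrArg φ h5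
      rw [map_smul, h1, smul_eq_mul] at this
      exact this.symm
    have h7 := congrArg ψ (hcomm x)
    rw [map_smul, map_smul, k1, smul_eq_mul, smul_eq_mul] at h7
    have h8 : ψ x = φ x * ψ v := by linear_combination h7 - ψ x * h6
    rw [h8]
    conv_lhs => rw [h5]
    module
  have hb : ψ v = 0 := by
    have h4 := congrArg ψ (hcomm v)
    rw [map_smul, map_smul, k1, h1, ha] at h4
    simpa using h4.symm
  exact ⟨v, w, φ, ψ, h1, k1, ha, hb, h3, k3⟩

theorem hyperplane_closed (ψ : (Fin N → ℂ) →ₗ[ℂ] ℂ) :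
    IsZariskiClosed {p : ℙ ℂ (Fin N → ℂ) | ψ p.rep = 0} := by
  refine ⟨{linP id ψ}, fun F hF => ⟨1, by rw [hF]; exact linP_hom _ _⟩, ?_⟩
  ext p
  simp [zeroSet, eval_linP]

theorem closed_union {Z₁ Z₂ : Set (ℙ ℂ (Fin N → ℂ))} (h₁ : IsZariskiClosed Z₁)
    (h₂ : IsZariskiClosed Z₂) : IsZariskiClosed (Z₁ ∪ Z₂) := by
  obtain ⟨S₁, a₁, rfl⟩ := h₁
  obtain ⟨S₂, a₂, rfl⟩ := h₂
  refine ⟨Set.image2 (· * ·) S₁ S₂, ?_, ?_⟩
  · rintro _ ⟨F, hF, G, hG, rfl⟩
    obtain ⟨d, hd⟩ := a₁ F hF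
    obtain ⟨e, he⟩ := a₂ G hG
    exact ⟨d + e, hd.mul he⟩
  · ext p
    simp only [zeroSet, Set.mem_union, Set.mem_setOf_eq, Set.forall_mem_image2, map_mul,
      mul_eq_zero]
    constructor
    · rintro (h | h) F hF G hG
      · exact Or.inl (h F hF)
      · exact Or.inr (h G hG)
    · intro h
      by_contra hcon
      push Not at hcon
      obtain ⟨⟨F, hF, h1⟩, G, hG, h2⟩ := hcon
      rcases h F hF G hG with h3 | h3
      · exact h1 h3
      · exact h2 h3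

/-- if entire curves pass through all points off three hyperplanes, the variety is not
pseudo-Brody hyperbolic -/
theorem not_pseudo {X : Set (ℙ ℂ (Fin N → ℂ))} (hX : IsZariskiIrreducible X)
    (hnd : IsNondegenerate X) (a b c : (Fin N → ℂ) →ₗ[ℂ] ℂ) (ha : a ≠ 0) (hb : b ≠ 0) (hc : c ≠ 0)
    (h : ∀ p ∈ X, a p.rep ≠ 0 → b p.rep ≠ 0 → c p.rep ≠ 0 → ∃ f, IsEntireCurve X f ∧ f 0 = p) :
    ¬ IsPseudoBrodyHyperbolic X := by
  rintro ⟨Z, hZ, hZX, hf⟩
  have h1 : X ⊆ Z ∪ ({p : ℙ ℂ (Fin N → ℂ) | a p.rep = 0} ∪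
      ({p : ℙ ℂ (Fin N → ℂ) | b p.rep = 0} ∪ {p : ℙ ℂ (Fin N → ℂ) | c p.rep = 0})) := by
    intro p hp
    by_cases h1 : a p.rep = 0
    · exact Or.inr (Or.inl h1)
    by_cases h2 : b p.rep = 0
    · exact Or.inr (Or.inr (Or.inl h2))
    by_cases h3 : c p.rep = 0
    · exact Or.inr (Or.inr (Or.inr h3))
    obtain ⟨f, f1, f2⟩ := h p hp h1 h2 h3
    exact Or.inl (f2 ▸ hf f f1 0)
  rcases hX.2 _ _ hZ (closed_union (hyperplane_closed a)
    (closed_union (hyperplane_closed b) (hyperplane_closed c))) h1 with h2 | h2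
  · exact hZX.2 h2
  rcases hX.2 _ _ (hyperplane_closed a)
    (closed_union (hyperplane_closed b) (hyperplane_closed c)) h2 with h3 | h3
  · exact ha (hnd a h3)
  rcases hX.2 _ _ (hyperplane_closed b) (hyperplane_closed c) h3 with h4 | h4
  · exact hb (hnd b h4)
  · exact hc (hnd c h4)

theorem exists_form (hN : 3 ≤ N) (v w : Fin N → ℂ) :
    ∃ c : (Fin N → ℂ) →ₗ[ℂ] ℂ, c ≠ 0 ∧ c v = 0 ∧ c w = 0 := by
  have h1 : Submodule.span ℂ ({v, w} : Set (Fin N → ℂ)) < ⊤ := by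
    refine lt_top_iff_ne_top.2 fun h => ?_
    have h2 := finrank_span_finset_le_card (R := ℂ) ({v, w} : Finset (Fin N → ℂ))
    have h3 : ({v, w} : Finset (Fin N → ℂ)).card ≤ 2 := Finset.card_le_two
    rw [Set.finrank, Finset.coe_pair, h, finrank_top, Module.finrank_fin_fun] at h2
    omega
  obtain ⟨c, hc0, hc⟩ := Submodule.exists_le_ker_of_lt_top _ h1
  exact ⟨c, hc0, hc (Submodule.subset_span (by simp)), hc (Submodule.subset_span (by simp))⟩

end Pool.Agent.H892Z.Ell
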