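import Mathlib
import Pool.Agent.H892Z.Ell.Refl

/-!
The three templates: two commuting reflections of order two, one reflection of order four, one
reflection of order three.
-/

set_option autoImplicit false

namespace Pool.Agent.H892Z.Ell

open Filter Topology MvPolynomial
open scoped LinearAlgebra.Projectivization

variable {N : ℕ}

theorem two_refl (hN : 3 ≤ N) {k : ℕ} (F : Fin k → MvPolynomial (Fin N) ℂ) (d : Fin k → ℕ)
    (hF : ∀ j, (F j).IsHomogeneous (d j)) (hd : ∑ j, d j ≤ N)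
    (σ τ : Module.End ℂ (Fin N → ℂ)) (hσ : IsReflection 2 σ) (hτ : IsReflection 2 τ)
    (hne : σ ≠ τ) (hc : Commute σ τ)
    (hσF : ∀ j x, eval (σ x) (F j) = eval x (F j)) (hτF : ∀ j x, eval (τ x) (F j) = eval x (F j))
    (hirr : IsZariskiIrreducible (zeroSet (Set.range F)))
    (hnd : IsNondegenerate (zeroSet (Set.range F))) :
    ¬ IsPseudoBrodyHyperbolic (zeroSet (Set.range F)) := by
  obtain ⟨v, w, φ, ψ, h1, h2, h3, h4, h5, h6⟩ := refl_pair hσ hτ hne hc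
  obtain ⟨c, c0, c1, c2⟩ := exists_form hN v w
  refine not_pseudo hirr hnd φ ψ c (fun h => by simp [h] at h1) (fun h => by simp [h] at h2) c0
    fun p hp ha hb hc' => ?_
  have key := sweep (S := Fin 2) (W := Fin 3) ![v, w] ![φ, ψ]
    (fun s t => by fin_cases s <;> fin_cases t <;> simp [h1, h2, h3, h4]) (fun _ => 2) (fun _ => -1)
    (fun _ => IsPrimitiveRoot.neg_one 0 (by norm_num)) F d hF
    (fun j s x => by
      fin_cases s
      · exact (congrArg (fun y => eval y (F j)) (h5 x)).symm.trans (hσF j x)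
      · exact (congrArg (fun y => eval y (F j)) (h6 x)).symm.trans (hτF j x))
    (by simp; omega) p.rep p.rep_nonzero (fun j => hp _ ⟨j, rfl⟩)
    (fun h => hc' (by rw [h]; simp [Fin.sum_univ_two, c1, c2]))
    (fun s a t => ![φ p.rep ^ 2 + a 0 * t ^ 2, ψ p.rep ^ 2 + a 1 * t + a 2 * t ^ 2] s)
    (fun s t => by
      fin_cases s
      · exact ⟨C (φ p.rep ^ 2) + X 0 * C (t ^ 2), fun a => by simp⟩
      · exact ⟨C (ψ p.rep ^ 2) + X 1 * C t + X 2 * C (t ^ 2), fun a => by simp⟩)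
    (fun s a => by
      fin_cases s
      · exact ⟨Polynomial.C (φ p.rep ^ 2) + Polynomial.C (a 0) * Polynomial.X ^ 2,
          by compute_degree, fun t => by simp⟩
      · exact ⟨Polynomial.C (ψ p.rep ^ 2) + Polynomial.C (a 1) * Polynomial.X +
          Polynomial.C (a 2) * Polynomial.X ^ 2, by compute_degree, fun t => by simp⟩)
    (fun s a => by fin_cases s <;> simp) (fun s t => by fin_cases s <;> simp)
    (fun a => by
      obtain ⟨ν, ξ, η, g1, g2, g3, g4, g5, g6, g7⟩ := quadrics 0 (a 0) (a 1) (a 2) _ _ ha hb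
      refine ⟨ν, ![ξ, η], g1, fun s => ?_, g4, fun s => ?_, g7.mono fun z hz s => ?_⟩
      · fin_cases s
        · exact g2
        · exact g3
      · fin_cases s
        · exact g5
        · exact g6
      · fin_cases s
        · simpa using hz.1
        · simpa using hz.2)
    (fun a c h => by
      have e1 := h 0 1
      have e2 := h 0 (-1)
      have e3 := h 1 1
      have e4 := h 1 (-1)
      simp only [Matrix.cons_val_zero, Matrix.cons_val_one] at e1 e2 e3 e4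
      have hc0 : c = 0 := by
        have : c * φ p.rep ^ 2 = 0 := by linear_combination (e2 - e1) / 4
        exact (mul_eq_zero.1 this).resolve_right (pow_ne_zero _ ha)
      refine ⟨hc0, ?_⟩
      rw [hc0] at e1 e3 e4
      funext i
      fin_cases i
      · show a 0 = 0
        linear_combination e1
      · show a 1 = 0
        linear_combination (e3 - e4) / 2
      · show a 2 = 0
        linear_combination (e3 + e4) / 2)
  rwa [Projectivization.mk_rep] at key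

theorem curve_four (α γ x : ℂ) (hx : x ≠ 0) : ∃ ν ξ : ℂ → ℂ, MA ν ∧ MA ξ ∧ ν 0 ≠ 0 ∧ ξ 0 = x ∧
    ∀ᶠ z in 𝓝 (0 : ℂ), ξ z ^ 4 =
      x ^ 4 * ((1 - α * (z * ν z)) ^ 2 * (1 + 2 * α * (z * ν z) + γ * (z * ν z) ^ 2)) := by
  let δ := α ^ 2 - γ
  obtain ⟨μ, w, hμ, hw, μ0, w0, h⟩ := quartic (-x ^ 2 * δ ^ 2) (4 * x ^ 2 * α * δ) 0
    (-4 * x ^ 2 * α) x hx
  let D : ℂ → ℂ := fun z => 1 - 2 * α * (z * μ z) + δ * (z * μ z) ^ 2
  have hm : MA fun z => z * μ z := MA.id.mul hμ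
  have hD : MA D := ((MA.const 1).sub (hm.cmul _)).add ((hm.pow 2).cmul _)
  have D0 : D 0 = 1 := by simp [D]
  have D0' : D 0 ≠ 0 := by rw [D0]; exact one_ne_zero
  refine ⟨fun z => 2 * μ z / D z, fun z => w z / D z, (hμ.cmul _).div hD D0', hw.div hD D0',
    ?_, ?_, ?_⟩
  · simp only [D0, div_one]
    exact mul_ne_zero two_ne_zero μ0
  · simp [D0, w0]
  filter_upwards [h, hD.ev_ne D0'] with z hz hDz
  have hγ : γ = α ^ 2 - δ := by simp [δ]
  have hDe : D z = 1 - 2 * α * (z * μ z) + δ * (z * μ z) ^ 2 := rfl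
  rw [hγ, div_pow, show w z ^ 4 = (w z ^ 2) ^ 2 by ring, hz]
  field_simp
  rw [hDe]
  ring

theorem curve_three (a b x : ℂ) (hx : x ≠ 0) : ∃ ν ξ : ℂ → ℂ, MA ν ∧ MA ξ ∧ ν 0 ≠ 0 ∧ ξ 0 = x ∧
    ∀ᶠ z in 𝓝 (0 : ℂ), ξ z ^ 3 = x ^ 3 + a * (z * ν z) ^ 2 + b * (z * ν z) ^ 3 := by
  by_cases ha : a = 0
  · obtain ⟨c, hb⟩ : ∃ c : ℂ, b = 6 * x ^ 3 * c := ⟨b / (6 * x ^ 3), by field_simp⟩
    obtain ⟨X, Y, hX, hY, X0, Y0, h⟩ := weier_long 0 0 0 0 (-c ^ 2 / 3)
    have hD : MA fun z => Y z - c * z ^ 3 := hY.sub ((MA.id.pow 3).cmul _)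
    have D0 : (fun z => Y z - c * z ^ 3) 0 ≠ 0 := by simp [Y0]
    refine ⟨fun z => X z / (Y z - c * z ^ 3), fun z => x * (Y z + c * z ^ 3) / (Y z - c * z ^ 3),
      hX.div hD D0, ((hY.add ((MA.id.pow 3).cmul _)).cmul _).div hD D0, by simp [X0, Y0],
      by simp [Y0], ?_⟩
    filter_upwards [h, hD.ev_ne D0] with z hz hDz
    rw [ha, hb, div_pow, div_eq_iff (pow_ne_zero 3 hDz)]
    have e1 : z * (X z / (Y z - c * z ^ 3)) * (Y z - c * z ^ 3) = z * X z := by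
      rw [mul_assoc, div_mul_cancel₀ _ hDz]
    have e2 : (x ^ 3 + 0 * (z * (X z / (Y z - c * z ^ 3))) ^ 2 +
        6 * x ^ 3 * c * (z * (X z / (Y z - c * z ^ 3))) ^ 3) * (Y z - c * z ^ 3) ^ 3 =
        x ^ 3 * (Y z - c * z ^ 3) ^ 3 +
          6 * x ^ 3 * c * (z * (X z / (Y z - c * z ^ 3)) * (Y z - c * z ^ 3)) ^ 3 := by
      ring
    rw [e2, e1]
    linear_combination (6 * x ^ 3 * c * z ^ 3) * hz
  · obtain ⟨μ, w, hμ, hw, μ0, w0, h⟩ := quartic (-3 * x ^ 2) 0 (-6 * x * a) (12 * x ^ 2 * b) (-a)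
      (neg_ne_zero.2 ha)
    have hm : MA fun z => z * μ z := MA.id.mul hμ
    have hD : MA fun z => 3 * x * (z * μ z) ^ 2 - a + w z :=
      (((hm.pow 2).cmul _).sub (MA.const a)).add hw
    have D0 : (fun z => 3 * x * (z * μ z) ^ 2 - a + w z) 0 ≠ 0 := by
      simp only [zero_mul, w0]
      intro h0
      apply ha
      linear_combination -h0 / 2
    have hν : MA fun z => -6 * x ^ 2 * μ z / (3 * x * (z * μ z) ^ 2 - a + w z) :=
      (hμ.cmul _).div hD D0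
    refine ⟨fun z => -6 * x ^ 2 * μ z / (3 * x * (z * μ z) ^ 2 - a + w z),
      fun z => x + (z * μ z) * (z * (-6 * x ^ 2 * μ z / (3 * x * (z * μ z) ^ 2 - a + w z))), hν,
      (MA.const x).add (hm.mul (MA.id.mul hν)), ?_, by simp, ?_⟩
    · exact div_ne_zero (mul_ne_zero (mul_ne_zero (by norm_num) (pow_ne_zero _ hx)) μ0) D0
    filter_upwards [h, hD.ev_ne D0] with z hz hDz
    set m := z * μ z with hmz
    set D := 3 * x * m ^ 2 - a + w z with hDe
    have e1 : z * (-6 * x ^ 2 * μ z / D) = -6 * x ^ 2 * m / D := by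
      rw [hmz]
      ring
    rw [e1]
    set t := -6 * x ^ 2 * m / D with ht
    have e2 : t * D = -6 * x ^ 2 * m := by
      rw [ht]
      field_simp
    have e3 : (m ^ 3 - b) * t ^ 2 + (3 * x * m ^ 2 - a) * t + 3 * x ^ 2 * m = 0 := by
      apply mul_left_cancel₀ (pow_ne_zero 2 hDz)
      have e4 : D ^ 2 * ((m ^ 3 - b) * t ^ 2 + (3 * x * m ^ 2 - a) * t + 3 * x ^ 2 * m) =
          (m ^ 3 - b) * (t * D) ^ 2 + (3 * x * m ^ 2 - a) * (t * D) * D + 3 * x ^ 2 * m * D ^ 2 := by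
        ring
      rw [e4, e2, hDe]
      linear_combination (3 * x ^ 2 * m) * hz
    linear_combination t * e3

theorem one_refl_aux (hN : 3 ≤ N) {k : ℕ} (F : Fin k → MvPolynomial (Fin N) ℂ) (d : Fin k → ℕ)
    (hF : ∀ j, (F j).IsHomogeneous (d j)) (hd : ∑ j, d j ≤ N) (r : ℕ) (hr : 2 ≤ r)
    (σ : Module.End ℂ (Fin N → ℂ)) (hσ : IsReflection r σ)
    (hσF : ∀ j x, eval (σ x) (F j) = eval x (F j))
    (hirr : IsZariskiIrreducible (zeroSet (Set.range F)))
    (hnd : IsNondegenerate (zeroSet (Set.range F)))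
    (u : ℂ → (Fin 2 → ℂ) → ℂ → ℂ)
    (hu1 : ∀ x t, ∃ A : MvPolynomial (Fin 2) ℂ, ∀ w, eval w A = u x w t)
    (hu2 : ∀ x w, ∃ Q : Polynomial ℂ, Q.natDegree ≤ r ∧ ∀ t, Q.eval t = u x w t)
    (hu3 : ∀ x w, u x w 0 = x ^ r) (hu4 : ∀ x t, u x 0 t = x ^ r)
    (hcurve : ∀ x, x ≠ 0 → ∀ w, ∃ (ν ξ : ℂ → ℂ), MA ν ∧ MA ξ ∧ ν 0 ≠ 0 ∧
      ξ 0 = x ∧ ∀ᶠ z in 𝓝 (0 : ℂ), ξ z ^ r = u x w (z * ν z))
    (hrigid : ∀ x, x ≠ 0 → ∀ w c, (∀ t, u x w t = ((1 + c * t) * x) ^ r) → c = 0 ∧ w = 0) :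
    ¬ IsPseudoBrodyHyperbolic (zeroSet (Set.range F)) := by
  obtain ⟨v, φ, ζ, h1, h2, h3⟩ := refl_form hr hσ
  obtain ⟨c, c0, c1, -⟩ := exists_form hN v v
  refine not_pseudo hirr hnd φ φ c (fun h => by simp [h] at h1) (fun h => by simp [h] at h1) c0
    fun p hp ha _ hc' => ?_
  have key := sweep (S := Unit) (W := Fin 2) (fun _ => v) (fun _ => φ)
    (fun s t => by simp [h1]) (fun _ => r) (fun _ => ζ) (fun _ => h2) F d hF
    (fun j s x => (congrArg (fun y => eval y (F j)) (h3 x)).symm.trans (hσF j x))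
    (by simp; omega) p.rep p.rep_nonzero (fun j => hp _ ⟨j, rfl⟩)
    (fun h => hc' (by rw [h]; simp [c1]))
    (fun _ => u (φ p.rep)) (fun _ => hu1 _) (fun _ => hu2 _) (fun _ => hu3 _) (fun _ => hu4 _)
    (fun a => by
      obtain ⟨ν, ξ, g1, g2, g3, g4, g5⟩ := hcurve _ ha a
      exact ⟨ν, fun _ => ξ, g1, fun _ => g2, g3, fun _ => g4, g5.mono fun z hz _ => hz⟩)
    (fun a c h => hrigid _ ha a c (h ()))
  rwa [Projectivization.mk_rep] at key

theorem refl_four (hN : 3 ≤ N) {k : ℕ} (F : Fin k → MvPolynomial (Fin N) ℂ) (d : Fin k → ℕ)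
    (hF : ∀ j, (F j).IsHomogeneous (d j)) (hd : ∑ j, d j ≤ N)
    (σ : Module.End ℂ (Fin N → ℂ)) (hσ : IsReflection 4 σ)
    (hσF : ∀ j x, eval (σ x) (F j) = eval x (F j))
    (hirr : IsZariskiIrreducible (zeroSet (Set.range F)))
    (hnd : IsNondegenerate (zeroSet (Set.range F))) :
    ¬ IsPseudoBrodyHyperbolic (zeroSet (Set.range F)) := by
  refine one_refl_aux hN F d hF hd 4 (by norm_num) σ hσ hσF hirr hnd
    (fun x a t => x ^ 4 * ((1 - a 0 * t) ^ 2 * (1 + 2 * a 0 * t + a 1 * t ^ 2)))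
    (fun x t => ⟨C (x ^ 4) * ((1 - X 0 * C t) ^ 2 * (1 + C 2 * X 0 * C t + X 1 * C (t ^ 2))),
      fun a => by simp⟩)
    (fun x a => ⟨Polynomial.C (x ^ 4) * ((1 - Polynomial.C (a 0) * Polynomial.X) ^ 2 *
      (1 + Polynomial.C (2 * a 0) * Polynomial.X + Polynomial.C (a 1) * Polynomial.X ^ 2)),
      by compute_degree, fun t => by simp⟩)
    (fun x a => by simp) (fun x t => by simp) (fun x hx a => curve_four (a 0) (a 1) x hx)
    (fun x hx a c h => ?_)
  have h4 : ∀ t, (1 - a 0 * t) ^ 2 * (1 + 2 * a 0 * t + a 1 * t ^ 2) = (1 + c * t) ^ 4 := by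
    intro t
    apply mul_left_cancel₀ (pow_ne_zero 4 hx)
    rw [h t]
    ring
  have e1 := h4 1
  have e2 := h4 (-1)
  have e3 := h4 2
  have e4 := h4 (-2)
  have hc : c = 0 := by linear_combination (-(8 * (e1 - e2) - (e3 - e4))) / 48
  refine ⟨hc, ?_⟩
  rw [hc] at e1 e2 e3 e4
  have f2 : a 1 - 3 * a 0 ^ 2 = 0 := by linear_combination (16 * (e1 + e2) - (e3 + e4)) / 24
  have f4 : a 0 ^ 2 * a 1 = 0 := by linear_combination ((e3 + e4) - 4 * (e1 + e2)) / 24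
  have g0 : a 0 = 0 := by
    have : a 0 ^ 4 = 0 := by linear_combination (f4 - a 0 ^ 2 * f2) / 3
    exact pow_eq_zero_iff (by norm_num) |>.1 this
  funext i
  fin_cases i
  · exact g0
  · show a 1 = 0
    rw [g0] at f2
    linear_combination f2

theorem refl_three (hN : 3 ≤ N) {k : ℕ} (F : Fin k → MvPolynomial (Fin N) ℂ) (d : Fin k → ℕ)
    (hF : ∀ j, (F j).IsHomogeneous (d j)) (hd : ∑ j, d j ≤ N)
    (σ : Module.End ℂ (Fin N → ℂ)) (hσ : IsReflection 3 σ)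
    (hσF : ∀ j x, eval (σ x) (F j) = eval x (F j))
    (hirr : IsZariskiIrreducible (zeroSet (Set.range F)))
    (hnd : IsNondegenerate (zeroSet (Set.range F))) :
    ¬ IsPseudoBrodyHyperbolic (zeroSet (Set.range F)) := by
  refine one_refl_aux hN F d hF hd 3 (by norm_num) σ hσ hσF hirr hnd
    (fun x a t => x ^ 3 + a 0 * t ^ 2 + a 1 * t ^ 3)
    (fun x t => ⟨C (x ^ 3) + X 0 * C (t ^ 2) + X 1 * C (t ^ 3), fun a => by simp⟩)
    (fun x a => ⟨Polynomial.C (x ^ 3) + Polynomial.C (a 0) * Polynomial.X ^ 2 +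
      Polynomial.C (a 1) * Polynomial.X ^ 3, by compute_degree, fun t => by simp⟩)
    (fun x a => by simp) (fun x t => by simp) (fun x hx a => curve_three (a 0) (a 1) x hx)
    (fun x hx a c h => ?_)
  have e1 := h 1
  have e2 := h (-1)
  have e3 := h 2
  have e4 := h (-2)
  have hc : c = 0 := by
    have : c * x ^ 3 = 0 := by linear_combination (-(8 * (e1 - e2) - (e3 - e4))) / 36
    exact (mul_eq_zero.1 this).resolve_right (pow_ne_zero _ hx)
  refine ⟨hc, ?_⟩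
  rw [hc] at e1 e2
  funext i
  fin_cases i
  · show a 0 = 0
    linear_combination (e1 + e2) / 2
  · show a 1 = 0
    linear_combination (e1 - e2) / 2

end Pool.Agent.H892Z.Ell
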